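import Mathlib

set_option autoImplicit false

/-!
# Almost every diagonal perturbation of a family of lines: energy estimates
-/

open MeasureTheory Set Filter Topology ENNReal NNReal Metric

namespace Pool.Agent.H023R3.KG

/-- Euclidean space of dimension `n`. -/
abbrev E (n : ℕ) : Type := EuclideanSpace ℝ (Fin n)

theorem lint_prod (μ : Measure ℝ) [SigmaFinite μ] : ∀ (n : ℕ) (f : Fin n → ℝ → ℝ≥0∞),
    (∀ i, Measurable (f i)) →
    ∫⁻ x : Fin n → ℝ, ∏ i, f i (x i) ∂(Measure.pi fun _ => μ) = ∏ i, ∫⁻ x, f i x ∂μ := by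
  intro n
  induction n with
  | zero => intro f _; simp
  | succ n ih =>
    intro f hf
    have hmp := (measurePreserving_piFinSuccAbove (fun _ : Fin (n + 1) => μ) 0).symm
    rw [← hmp.lintegral_comp_emb (MeasurableEquiv.measurableEmbedding _)]
    simp_rw [MeasurableEquiv.piFinSuccAbove_symm_apply, Fin.insertNthEquiv,
      Fin.prod_univ_succ, Fin.insertNth_zero]
    simp only [Equiv.coe_fn_mk, Fin.cons_succ, Fin.cons_zero, cast_eq]
    have h := lintegral_prod_mul (μ := μ) (ν := Measure.pi fun _ : Fin n => μ)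
      (f := fun x => f 0 x) (g := fun y => ∏ i : Fin n, f i.succ (y i))
      (hf 0).aemeasurable
      (Finset.measurable_prod _ (fun i _ => (hf i.succ).comp (measurable_pi_apply i))).aemeasurable
    rw [← ih (fun i => f i.succ) (fun i => hf i.succ)]
    exact h

theorem rneg {x y : ℝ≥0∞} {p : ℝ} (hp : 0 ≤ p) (h : x ≤ y) : y ^ (-p) ≤ x ^ (-p) := by
  rw [ENNReal.rpow_neg, ENNReal.rpow_neg]
  exact ENNReal.inv_le_inv.2 (ENNReal.rpow_le_rpow h hp)

/-- The singularity `|u|^(-p)` is integrable at the origin. -/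
theorem sing_int {p : ℝ} (hp : p < 1) :
    ∫⁻ u in Icc (-1 : ℝ) 1, (ENNReal.ofReal |u|) ^ (-p) < ∞ := by
  have h1 : IntegrableOn (fun x : ℝ => x ^ (-p)) (Ioc 0 1) := by
    have := (intervalIntegral.intervalIntegrable_rpow' (a := 0) (b := 1)
      (by linarith : -1 < -p))
    exact (intervalIntegrable_iff_integrableOn_Ioc_of_le zero_le_one).1 this
  have h2 : ∫⁻ u in Ioc (0 : ℝ) 1, (ENNReal.ofReal |u|) ^ (-p) < ∞ := by
    have h3 : ∫⁻ u in Ioc (0 : ℝ) 1, (ENNReal.ofReal |u|) ^ (-p)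
        = ∫⁻ u in Ioc (0 : ℝ) 1, ENNReal.ofReal (u ^ (-p)) := by
      apply setLIntegral_congr_fun measurableSet_Ioc
      intro u hu
      show (ENNReal.ofReal |u|) ^ (-p) = ENNReal.ofReal (u ^ (-p))
      rw [abs_of_pos hu.1, ENNReal.ofReal_rpow_of_pos hu.1]
    rw [h3]
    exact h1.lintegral_lt_top
  have hs : Icc (-1 : ℝ) 1 ⊆ (Neg.neg ⁻¹' Ioc (0 : ℝ) 1) ∪ ({0} ∪ Ioc (0 : ℝ) 1) := by
    intro u hu
    rcases lt_trichotomy u 0 with h | h | h
    · left
      exact ⟨by simpa using h, by linarith [hu.1]⟩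
    · right; left; simpa using h
    · right; right; exact ⟨h, hu.2⟩
  have h4 : ∫⁻ u in Neg.neg ⁻¹' Ioc (0 : ℝ) 1, (ENNReal.ofReal |u|) ^ (-p)
      = ∫⁻ u in Ioc (0 : ℝ) 1, (ENNReal.ofReal |u|) ^ (-p) := by
    have := (Measure.measurePreserving_neg (volume : Measure ℝ)).setLIntegral_comp_preimage_emb
      (MeasurableEquiv.neg ℝ).measurableEmbedding (fun u => (ENNReal.ofReal |u|) ^ (-p))
      (Ioc (0 : ℝ) 1)
    simpa [abs_neg] using this
  calc ∫⁻ u in Icc (-1 : ℝ) 1, (ENNReal.ofReal |u|) ^ (-p)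
      ≤ ∫⁻ u in (Neg.neg ⁻¹' Ioc (0 : ℝ) 1) ∪ ({0} ∪ Ioc (0 : ℝ) 1),
          (ENNReal.ofReal |u|) ^ (-p) := lintegral_mono_set hs
    _ ≤ (∫⁻ u in (Neg.neg ⁻¹' Ioc (0 : ℝ) 1), (ENNReal.ofReal |u|) ^ (-p)) +
        (∫⁻ u in ({0} ∪ Ioc (0 : ℝ) 1), (ENNReal.ofReal |u|) ^ (-p)) := lintegral_union_le _ _ _
    _ ≤ (∫⁻ u in (Neg.neg ⁻¹' Ioc (0 : ℝ) 1), (ENNReal.ofReal |u|) ^ (-p)) +
        ((∫⁻ u in ({0} : Set ℝ), (ENNReal.ofReal |u|) ^ (-p)) +
        (∫⁻ u in Ioc (0 : ℝ) 1, (ENNReal.ofReal |u|) ^ (-p))) :=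
        add_le_add_right (lintegral_union_le _ _ _) _
    _ < ∞ := by
        rw [h4]
        have h5 : ∫⁻ u in ({0} : Set ℝ), (ENNReal.ofReal |u|) ^ (-p) = 0 := by
          rw [Measure.restrict_eq_zero.2 (by simp : volume ({0} : Set ℝ) = 0)]
          simp
        rw [h5, zero_add]
        exact ENNReal.add_lt_top.2 ⟨h2, h2⟩

/-- The one-dimensional transversality estimate. -/
theorem one_dim {p : ℝ} (hp0 : 0 < p) (hp : p < 1) (R : ℝ) : ∃ C : ℝ≥0∞, C ≠ ∞ ∧
    ∀ c δ : ℝ, ∫⁻ x in Icc (-R) R, (ENNReal.ofReal |c + x * δ|) ^ (-p)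
      ≤ C * (ENNReal.ofReal |δ|) ^ (-p) := by
  set J := ∫⁻ u in Icc (-1 : ℝ) 1, (ENNReal.ofReal |u|) ^ (-p) with hJ
  have hJt : J ≠ ∞ := (sing_int hp).ne
  set C : ℝ≥0∞ := J + volume (Icc (-R) R) + 1 with hC
  have hvt : volume (Icc (-R) R) ≠ ∞ := measure_Icc_lt_top.ne
  have hCt : C ≠ ∞ := by
    rw [hC]
    exact ENNReal.add_ne_top.2 ⟨ENNReal.add_ne_top.2 ⟨hJt, hvt⟩, ENNReal.one_ne_top⟩
  have hC0 : C ≠ 0 := by
    rw [hC]
    simp
  refine ⟨C, hCt, ?_⟩
  intro c δ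
  by_cases hδ : δ = 0
  · subst hδ
    rw [abs_zero, ENNReal.ofReal_zero, ENNReal.zero_rpow_of_neg (by linarith), ENNReal.mul_top hC0]
    exact le_top
  · have h1 : ∀ x : ℝ, (ENNReal.ofReal |c + x * δ|) ^ (-p) =
        (ENNReal.ofReal |δ|) ^ (-p) * (ENNReal.ofReal |x + c / δ|) ^ (-p) := by
      intro x
      rw [← ENNReal.mul_rpow_of_ne_top ENNReal.ofReal_ne_top ENNReal.ofReal_ne_top,
        ← ENNReal.ofReal_mul (abs_nonneg _), ← abs_mul]
      congr 3
      field_simp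
      ring
    simp_rw [h1]
    rw [lintegral_const_mul' _ _ (ENNReal.rpow_ne_top_of_ne_zero (by simpa using hδ)
      ENNReal.ofReal_ne_top), mul_comm]
    gcongr
    set z := c / δ
    have h2 : ∀ x : ℝ, (ENNReal.ofReal |x + z|) ^ (-p) ≤
        (Icc (-1 : ℝ) 1).indicator (fun u => (ENNReal.ofReal |u|) ^ (-p)) (x + z) + 1 := by
      intro x
      by_cases hx : x + z ∈ Icc (-1 : ℝ) 1
      · rw [indicator_of_mem hx]
        exact le_self_add
      · rw [indicator_of_notMem hx, zero_add]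
        have h3 : 1 ≤ |x + z| := by
          by_contra hcon
          push Not at hcon
          exact hx ⟨(abs_lt.1 hcon).1.le, (abs_lt.1 hcon).2.le⟩
        have h4 : (1 : ℝ≥0∞) ≤ ENNReal.ofReal |x + z| := by
          rw [← ENNReal.ofReal_one]
          exact ENNReal.ofReal_le_ofReal h3
        calc (ENNReal.ofReal |x + z|) ^ (-p) ≤ 1 ^ (-p) :=
              rneg (by linarith) h4
          _ = 1 := ENNReal.one_rpow _
    calc ∫⁻ x in Icc (-R) R, (ENNReal.ofReal |x + z|) ^ (-p)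
        ≤ ∫⁻ x in Icc (-R) R, ((Icc (-1 : ℝ) 1).indicator
            (fun u => (ENNReal.ofReal |u|) ^ (-p)) (x + z) + 1) := lintegral_mono h2
      _ = (∫⁻ x in Icc (-R) R, (Icc (-1 : ℝ) 1).indicator
            (fun u => (ENNReal.ofReal |u|) ^ (-p)) (x + z)) + volume (Icc (-R) R) := by
          rw [lintegral_add_right _ measurable_const]
          simp
      _ ≤ (∫⁻ x : ℝ, (Icc (-1 : ℝ) 1).indicator
            (fun u => (ENNReal.ofReal |u|) ^ (-p)) (x + z)) + volume (Icc (-R) R) := by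
          gcongr
          exact Measure.restrict_le_self
      _ = J + volume (Icc (-R) R) := by
          rw [lintegral_add_right_eq_self (fun x => (Icc (-1 : ℝ) 1).indicator
            (fun u => (ENNReal.ofReal |u|) ^ (-p)) x) z, lintegral_indicator measurableSet_Icc]
      _ ≤ C := by rw [hC]; exact le_self_add

/-- The point at height `t` of the perturbed line number `v`: horizontal coordinates
`a v i + (l i + t) * v i`, last coordinate `t`. -/
noncomputable def pt {d : ℕ} (a : (Fin d → ℝ) → Fin d → ℝ) (l v : Fin d → ℝ) (t : ℝ) :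
    E (d + 1) :=
  WithLp.toLp 2 (Fin.snoc (fun i => a v i + (l i + t) * v i) t : Fin (d + 1) → ℝ)

/-- The product kernel. -/
noncomputable def ker {n : ℕ} (p : ℝ) (x y : E n) : ℝ≥0∞ :=
  ∏ i, (ENNReal.ofReal |x i - y i|) ^ (-p)

theorem ker_pt {d : ℕ} (p : ℝ) (a : (Fin d → ℝ) → Fin d → ℝ) (l v w : Fin d → ℝ) (t s : ℝ) :
    ker p (pt a l v t) (pt a l w s) =
      (∏ i, (ENNReal.ofReal |(a v i - a w i + (t * v i - s * w i)) + l i * (v i - w i)|) ^ (-p)) *
        (ENNReal.ofReal |t - s|) ^ (-p) := by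
  unfold ker pt
  rw [Fin.prod_univ_castSucc]
  congr 1
  · apply Finset.prod_congr rfl
    intro i _
    simp only [Fin.snoc_castSucc]
    congr 3
    ring
  · simp only [Fin.snoc_last]

theorem ker_ge {n : ℕ} {p : ℝ} (hp : 0 < p) {x y : E n} {r : ℝ} (hr : 0 < r) (h : dist x y ≤ r) :
    ENNReal.ofReal (r ^ (-(p * n))) ≤ ker p x y := by
  have h1 : ∀ i, (ENNReal.ofReal r) ^ (-p) ≤ (ENNReal.ofReal |x i - y i|) ^ (-p) := by
    intro i
    apply rneg hp.le
    apply ENNReal.ofReal_le_ofReal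
    have h2 := PiLp.norm_apply_le (x - y) i
    rw [← dist_eq_norm] at h2
    have h3 : ‖(x - y) i‖ = |x i - y i| := rfl
    rw [h3] at h2
    exact h2.trans h
  have h4 : ∏ _i : Fin n, (ENNReal.ofReal r) ^ (-p) ≤ ker p x y :=
    Finset.prod_le_prod' (fun i _ => h1 i)
  refine le_trans (le_of_eq ?_) h4
  rw [Finset.prod_const, Finset.card_univ, Fintype.card_fin, ENNReal.ofReal_rpow_of_pos hr,
    ← ENNReal.ofReal_pow (by positivity), ← Real.rpow_natCast, ← Real.rpow_mul hr.le]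
  congr 2
  ring

/-- Lebesgue measure on `[-N, N]`. -/
noncomputable def nu (N : ℝ) : Measure ℝ := volume.restrict (Icc (-N) N)

/-- Lebesgue measure on `[-N, N]^d`. -/
noncomputable def nud (d : ℕ) (N : ℝ) : Measure (Fin d → ℝ) := Measure.pi (fun _ => nu N)

instance (N : ℝ) : IsFiniteMeasure (nu N) := by
  unfold nu
  infer_instance

instance (d : ℕ) (N : ℝ) : IsFiniteMeasure (nud d N) := by
  unfold nud
  infer_instance

theorem nud_eq (d : ℕ) (N : ℝ) :
    nud d N = (volume : Measure (Fin d → ℝ)).restrict (univ.pi fun _ => Icc (-N) N) := by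
  unfold nud nu
  rw [volume_pi, Measure.restrict_pi_pi]

theorem measurable_ker {d : ℕ} (p : ℝ) {a : (Fin d → ℝ) → Fin d → ℝ} (ha : Measurable a) :
    Measurable (fun q : (Fin d → ℝ) × ((Fin d → ℝ) × ℝ) × ((Fin d → ℝ) × ℝ) =>
      ker p (pt a q.1 q.2.1.1 q.2.1.2) (pt a q.1 q.2.2.1 q.2.2.2)) := by
  simp_rw [ker_pt]
  have hav : ∀ i, Measurable (fun q : (Fin d → ℝ) × ((Fin d → ℝ) × ℝ) × ((Fin d → ℝ) × ℝ) =>
      a q.2.1.1 i) := fun i => (measurable_pi_apply i).comp (ha.comp (by fun_prop))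
  have haw : ∀ i, Measurable (fun q : (Fin d → ℝ) × ((Fin d → ℝ) × ℝ) × ((Fin d → ℝ) × ℝ) =>
      a q.2.2.1 i) := fun i => (measurable_pi_apply i).comp (ha.comp (by fun_prop))
  refine Measurable.mul ?_ ?_
  · refine Finset.measurable_prod _ (fun i _ => ?_)
    refine Measurable.pow_const ?_ _
    apply Measurable.ennreal_ofReal
    apply Measurable.abs
    exact (((hav i).sub (haw i)).add (by fun_prop)).add (by fun_prop)
  · refine Measurable.pow_const ?_ _
    fun_prop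

/-- The averaged energy is finite. -/
theorem energy {d : ℕ} {p : ℝ} (hp0 : 0 < p) (hp : p < 1) {a : (Fin d → ℝ) → Fin d → ℝ}
    (ha : Measurable a) (R N : ℝ) :
    ∫⁻ x : (Fin d → ℝ) × ℝ, ∫⁻ y : (Fin d → ℝ) × ℝ, ∫⁻ l : Fin d → ℝ,
      ker p (pt a l x.1 x.2) (pt a l y.1 y.2) ∂(nud d R) ∂((nud d N).prod (nu N))
      ∂((nud d N).prod (nu N)) < ∞ := by
  obtain ⟨C, hC, h1⟩ := one_dim hp0 hp R
  obtain ⟨D, hD, h2⟩ := one_dim hp0 hp N
  have hin : ∀ x y : (Fin d → ℝ) × ℝ, ∫⁻ l : Fin d → ℝ,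
      ker p (pt a l x.1 x.2) (pt a l y.1 y.2) ∂(nud d R) ≤
      C ^ d * ((∏ i, (ENNReal.ofReal |x.1 i - y.1 i|) ^ (-p)) *
        (ENNReal.ofReal |x.2 - y.2|) ^ (-p)) := by
    intro x y
    simp_rw [ker_pt]
    unfold nud
    have hm : ∀ i : Fin d, Measurable (fun u : ℝ => (ENNReal.ofReal
        |(a x.1 i - a y.1 i + (x.2 * x.1 i - y.2 * y.1 i)) + u * (x.1 i - y.1 i)|) ^ (-p)) := by
      intro i
      refine Measurable.pow_const ?_ _
      fun_prop
    have hmp : Measurable (fun l : Fin d → ℝ => ∏ i, (ENNReal.ofReal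
        |(a x.1 i - a y.1 i + (x.2 * x.1 i - y.2 * y.1 i)) + l i * (x.1 i - y.1 i)|) ^ (-p)) :=
      Finset.measurable_prod _ (fun i _ => (hm i).comp (measurable_pi_apply i))
    rw [lintegral_mul_const _ hmp]
    rw [lint_prod (nu R) d (fun i u => (ENNReal.ofReal
        |(a x.1 i - a y.1 i + (x.2 * x.1 i - y.2 * y.1 i)) + u * (x.1 i - y.1 i)|) ^ (-p)) hm]
    rw [← mul_assoc]
    gcongr
    calc ∏ i, ∫⁻ u, (ENNReal.ofReal |(a x.1 i - a y.1 i + (x.2 * x.1 i - y.2 * y.1 i)) +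
            u * (x.1 i - y.1 i)|) ^ (-p) ∂(nu R)
        ≤ ∏ i : Fin d, (C * (ENNReal.ofReal |x.1 i - y.1 i|) ^ (-p)) :=
          Finset.prod_le_prod' (fun i _ => h1 _ _)
      _ = C ^ d * ∏ i, (ENNReal.ofReal |x.1 i - y.1 i|) ^ (-p) := by
          rw [Finset.prod_mul_distrib, Finset.prod_const, Finset.card_univ, Fintype.card_fin]
  have hsing : ∀ z : ℝ, ∫⁻ u, (ENNReal.ofReal |z - u|) ^ (-p) ∂(nu N) ≤ D := by
    intro z
    have h3 := h2 z (-1)
    simp only [abs_neg, abs_one, ENNReal.ofReal_one, ENNReal.one_rpow, mul_one] at h3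
    refine le_trans (le_of_eq ?_) h3
    unfold nu
    apply lintegral_congr
    intro u
    congr 3
    ring
  have hmid : ∀ x : (Fin d → ℝ) × ℝ, ∫⁻ y : (Fin d → ℝ) × ℝ,
      C ^ d * ((∏ i, (ENNReal.ofReal |x.1 i - y.1 i|) ^ (-p)) *
        (ENNReal.ofReal |x.2 - y.2|) ^ (-p)) ∂((nud d N).prod (nu N)) ≤ C ^ d * (D ^ d * D) := by
    intro x
    have hmi : ∀ i : Fin d, Measurable (fun u : ℝ => (ENNReal.ofReal |x.1 i - u|) ^ (-p)) := by
      intro i
      refine Measurable.pow_const ?_ _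
      fun_prop
    have hm2 : Measurable (fun w : Fin d → ℝ => ∏ i, (ENNReal.ofReal |x.1 i - w i|) ^ (-p)) :=
      Finset.measurable_prod _ (fun i _ => (hmi i).comp (measurable_pi_apply i))
    have hm3 : Measurable (fun u : ℝ => (ENNReal.ofReal |x.2 - u|) ^ (-p)) := by
      refine Measurable.pow_const ?_ _
      fun_prop
    have hm4 : Measurable (fun y : (Fin d → ℝ) × ℝ => (∏ i, (ENNReal.ofReal |x.1 i - y.1 i|) ^ (-p)) *
        (ENNReal.ofReal |x.2 - y.2|) ^ (-p)) :=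
      (hm2.comp measurable_fst).mul (hm3.comp measurable_snd)
    rw [lintegral_const_mul _ hm4]
    gcongr
    rw [lintegral_prod_mul (f := fun w : Fin d → ℝ => ∏ i, (ENNReal.ofReal |x.1 i - w i|) ^ (-p))
      (g := fun u : ℝ => (ENNReal.ofReal |x.2 - u|) ^ (-p)) hm2.aemeasurable hm3.aemeasurable]
    refine mul_le_mul' ?_ (hsing _)
    unfold nud
    rw [lint_prod (nu N) d (fun i u => (ENNReal.ofReal |x.1 i - u|) ^ (-p)) hmi]
    calc ∏ i, ∫⁻ u, (ENNReal.ofReal |x.1 i - u|) ^ (-p) ∂(nu N) ≤ ∏ _i : Fin d, D :=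
          Finset.prod_le_prod' (fun i _ => hsing _)
      _ = D ^ d := by rw [Finset.prod_const, Finset.card_univ, Fintype.card_fin]
  calc _ ≤ ∫⁻ _x : (Fin d → ℝ) × ℝ, C ^ d * (D ^ d * D) ∂((nud d N).prod (nu N)) := by
        apply lintegral_mono
        intro x
        exact (lintegral_mono (fun y => hin x y)).trans (hmid x)
    _ < ∞ := by
        rw [lintegral_const]
        refine ENNReal.mul_lt_top ?_ (measure_lt_top _ _)
        exact ENNReal.mul_lt_top (ENNReal.pow_lt_top hC.lt_top)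
          (ENNReal.mul_lt_top (ENNReal.pow_lt_top hD.lt_top) hD.lt_top)

theorem ae_ae_of_energy {L X : Type*} [MeasurableSpace L] [MeasurableSpace X] (μ : Measure L)
    (m : Measure X) [SFinite μ] [SFinite m] {k : L × X × X → ℝ≥0∞} (hk : Measurable k)
    (h0 : ∫⁻ x, ∫⁻ y, ∫⁻ l, k (l, x, y) ∂μ ∂m ∂m < ∞) :
    ∀ᵐ l ∂μ, ∀ᵐ x ∂m, ∫⁻ y, k (l, x, y) ∂m < ∞ := by
  have hk1 : Measurable (fun q : (L × X) × X => k (q.1.1, q.1.2, q.2)) :=
    hk.comp (by fun_prop)
  have hP : Measurable (fun q : L × X => ∫⁻ y, k (q.1, q.2, y) ∂m) :=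
    Measurable.lintegral_prod_right' hk1
  have e1 : ∫⁻ l, ∫⁻ x, ∫⁻ y, k (l, x, y) ∂m ∂m ∂μ
      = ∫⁻ x, ∫⁻ l, ∫⁻ y, k (l, x, y) ∂m ∂μ ∂m :=
    lintegral_lintegral_swap (f := fun l x => ∫⁻ y, k (l, x, y) ∂m) hP.aemeasurable
  have e2 : ∀ x, ∫⁻ l, ∫⁻ y, k (l, x, y) ∂m ∂μ = ∫⁻ y, ∫⁻ l, k (l, x, y) ∂μ ∂m := by
    intro x
    have hx : Measurable (fun q : L × X => k (q.1, x, q.2)) := hk.comp (by fun_prop)
    exact lintegral_lintegral_swap (f := fun l y => k (l, x, y)) hx.aemeasurable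
  have h1 : ∫⁻ l, ∫⁻ x, ∫⁻ y, k (l, x, y) ∂m ∂m ∂μ < ∞ := by
    rw [e1]
    simp_rw [e2]
    exact h0
  have h2 : ∀ᵐ l ∂μ, ∫⁻ x, ∫⁻ y, k (l, x, y) ∂m ∂m < ∞ :=
    ae_lt_top (Measurable.lintegral_prod_right' hP) h1.ne
  filter_upwards [h2] with l hl
  have hl2 : Measurable (fun x => ∫⁻ y, k (l, x, y) ∂m) := hP.comp (measurable_prodMk_left (x := l))
  exact ae_lt_top hl2 hl.ne

/-- For almost every perturbation the potential is finite almost everywhere. -/
theorem ae_pot {d : ℕ} {p : ℝ} (hp0 : 0 < p) (hp : p < 1) {a : (Fin d → ℝ) → Fin d → ℝ}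
    (ha : Measurable a) (R N : ℝ) : ∀ᵐ l ∂(nud d R), ∀ᵐ x ∂((nud d N).prod (nu N)),
      ∫⁻ y : (Fin d → ℝ) × ℝ, ker p (pt a l x.1 x.2) (pt a l y.1 y.2)
        ∂((nud d N).prod (nu N)) < ∞ :=
  ae_ae_of_energy (nud d R) ((nud d N).prod (nu N)) (measurable_ker p ha)
    (energy hp0 hp ha R N)

theorem small_cover {X : Type*} [MetricSpace X] [MeasurableSpace X] [BorelSpace X] {K : Set X}
    {s : ℝ} (hs : 0 < s) (hz : μH[s] K = 0) {ε : ℝ} (hε : 0 < ε) :
    ∃ (t : ℕ → Set X) (r : ℕ → ℝ), K ⊆ ⋃ i, t i ∧ (∀ i, 0 < r i) ∧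
      (∀ i, ∀ x ∈ t i, ∀ y ∈ t i, dist x y ≤ r i) ∧
      ∑' i, ENNReal.ofReal (r i ^ s) ≤ ENNReal.ofReal (2 * ε) := by
  classical
  rw [Measure.hausdorffMeasure_apply] at hz
  have h1 : (⨅ (t : ℕ → Set X) (_ : K ⊆ ⋃ n, t n)
      (_ : ∀ n, ediam (t n) ≤ ENNReal.ofReal (1 / 2)),
        ∑' n, ⨆ _ : (t n).Nonempty, ediam (t n) ^ s) = 0 := by
    have := (ENNReal.iSup_eq_zero.1 hz (ENNReal.ofReal (1 / 2)))
    exact ENNReal.iSup_eq_zero.1 this (by simp)
  have h2 : (⨅ (t : ℕ → Set X) (_ : K ⊆ ⋃ n, t n)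
      (_ : ∀ n, ediam (t n) ≤ ENNReal.ofReal (1 / 2)),
        ∑' n, ⨆ _ : (t n).Nonempty, ediam (t n) ^ s) < ENNReal.ofReal ε := by
    rw [h1]
    simpa using hε
  simp only [iInf_lt_iff] at h2
  obtain ⟨t, ht1, ht2, ht3⟩ := h2
  obtain ⟨η, hη0, hηs⟩ := ENNReal.exists_pos_sum_of_countable
    (ε := ENNReal.ofReal ε) (by simpa using hε) ℕ
  set D : ℕ → ℝ := fun i => (ediam (t i)).toReal with hD
  have hDt : ∀ i, ediam (t i) ≠ ∞ := fun i => ((ht2 i).trans_lt ENNReal.ofReal_lt_top).ne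
  have hD0 : ∀ i, 0 ≤ D i := fun i => ENNReal.toReal_nonneg
  have hη0' : ∀ i, (0 : ℝ) < η i := fun i => by exact_mod_cast hη0 i
  set θ : ℕ → ℝ := fun i => (η i : ℝ) ^ (1 / s) with hθ
  have hθ0 : ∀ i, 0 < θ i := fun i => Real.rpow_pos_of_pos (hη0' i) _
  have hθs : ∀ i, θ i ^ s = η i := by
    intro i
    simp only [hθ]
    rw [← Real.rpow_mul (hη0' i).le, one_div, inv_mul_cancel₀ hs.ne', Real.rpow_one]
  set r : ℕ → ℝ := fun i => if (t i).Nonempty then max (D i) (θ i) else θ i with hr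
  refine ⟨t, r, ht1, ?_, ?_, ?_⟩
  · intro i
    simp only [hr]
    split_ifs
    · exact lt_max_of_lt_right (hθ0 i)
    · exact hθ0 i
  · intro i x hx y hy
    have hne : (t i).Nonempty := ⟨x, hx⟩
    have h3 : edist x y ≤ ediam (t i) := edist_le_ediam_of_mem hx hy
    have h4 : dist x y ≤ D i := by
      rw [edist_dist] at h3
      have := ENNReal.toReal_mono (hDt i) h3
      rwa [ENNReal.toReal_ofReal dist_nonneg] at this
    simp only [hr, hne, if_true]
    exact h4.trans (le_max_left _ _)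
  · calc ∑' i, ENNReal.ofReal (r i ^ s)
        ≤ ∑' i, ((⨆ _ : (t i).Nonempty, ediam (t i) ^ s) + (η i : ℝ≥0∞)) := by
          apply ENNReal.tsum_le_tsum
          intro i
          by_cases hne : (t i).Nonempty
          · simp only [hne, ciSup_unique]
            have h7 : r i ^ s ≤ D i ^ s + η i := by
              simp only [hr, hne, if_true]
              rcases le_total (D i) (θ i) with h | h
              · rw [max_eq_right h, hθs]
                have := Real.rpow_nonneg (hD0 i) s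
                linarith
              · rw [max_eq_left h]
                linarith [hη0' i]
            refine (ENNReal.ofReal_le_ofReal h7).trans ?_
            rw [ENNReal.ofReal_add (Real.rpow_nonneg (hD0 i) _) (hη0' i).le]
            apply add_le_add
            · rw [← ENNReal.ofReal_rpow_of_nonneg (hD0 i) hs.le]
              simp only [hD]
              rw [ENNReal.ofReal_toReal (hDt i)]
            · simp
          · have h7 : r i ^ s = η i := by
              simp only [hr, hne, if_false]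
              exact hθs i
            rw [h7]
            simp
      _ = (∑' i, (⨆ _ : (t i).Nonempty, ediam (t i) ^ s)) + ∑' i, (η i : ℝ≥0∞) := by
          rw [ENNReal.tsum_add]
      _ ≤ ENNReal.ofReal ε + ENNReal.ofReal ε := by gcongr
      _ = _ := by
          rw [← ENNReal.ofReal_add hε.le hε.le]
          congr 1
          ring

/-- Mass distribution principle with the product kernel. -/
theorem mass {X : Type*} [MeasurableSpace X] {n : ℕ} (m : Measure X) {Φ : X → E n} {p : ℝ}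
    (hp : 0 < p) (hn : 0 < n) {G : Set X} {K : Set (E n)} (hΦ : Measurable Φ) {M : ℝ≥0∞}
    (hM : M ≠ ∞) (hG : ∀ x ∈ G, ∫⁻ y, ker p (Φ x) (Φ y) ∂m ≤ M) (hGK : ∀ x ∈ G, Φ x ∈ K)
    (hpos : 0 < m G) : μH[p * n] K ≠ 0 := by
  intro hz
  have hs : 0 < p * n := mul_pos hp (by exact_mod_cast hn)
  have hkey : ∀ ε : ℝ, 0 < ε → m G ≤ M * ENNReal.ofReal (2 * ε) := by
    intro ε hε
    obtain ⟨t, r, h1, h2, h3, h4⟩ := small_cover hs hz hε
    have h5 : ∀ i, m (G ∩ Φ ⁻¹' (t i)) ≤ M * ENNReal.ofReal (r i ^ (p * n)) := by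
      intro i
      rcases (G ∩ Φ ⁻¹' (t i)).eq_empty_or_nonempty with he | ⟨x, hxG, hxt⟩
      · rw [he]; simp
      · set D : Set X := Φ ⁻¹' closedBall (Φ x) (r i) with hD
        have hDm : MeasurableSet D := hΦ measurableSet_closedBall
        have h6 : G ∩ Φ ⁻¹' (t i) ⊆ D := by
          rintro y ⟨_, hy⟩
          exact h3 i _ hy _ hxt
        have h7 : ENNReal.ofReal (r i ^ (-(p * n))) * m D ≤ M := by
          calc ENNReal.ofReal (r i ^ (-(p * n))) * m D
              = ∫⁻ _ in D, ENNReal.ofReal (r i ^ (-(p * n))) ∂m := by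
                rw [setLIntegral_const]
            _ ≤ ∫⁻ y in D, ker p (Φ x) (Φ y) ∂m := by
                apply setLIntegral_mono' hDm
                intro y hy
                exact ker_ge hp (h2 i) (by rw [dist_comm]; exact hy)
            _ ≤ ∫⁻ y, ker p (Φ x) (Φ y) ∂m := setLIntegral_le_lintegral _ _
            _ ≤ M := hG x hxG
        have hr0 : 0 < r i ^ (p * n) := Real.rpow_pos_of_pos (h2 i) _
        calc m (G ∩ Φ ⁻¹' (t i)) ≤ m D := measure_mono h6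
          _ = ENNReal.ofReal (r i ^ (p * n)) * (ENNReal.ofReal (r i ^ (-(p * n))) * m D) := by
              rw [← mul_assoc, ← ENNReal.ofReal_mul hr0.le, ← Real.rpow_add (h2 i)]
              simp
          _ ≤ ENNReal.ofReal (r i ^ (p * n)) * M := by gcongr
          _ = _ := mul_comm _ _
    calc m G ≤ m (⋃ i, G ∩ Φ ⁻¹' (t i)) := by
          apply measure_mono
          intro x hx
          obtain ⟨i, hi⟩ := mem_iUnion.1 (h1 (hGK x hx))
          exact mem_iUnion.2 ⟨i, hx, hi⟩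
      _ ≤ ∑' i, m (G ∩ Φ ⁻¹' (t i)) := measure_iUnion_le _
      _ ≤ ∑' i, M * ENNReal.ofReal (r i ^ (p * n)) := ENNReal.tsum_le_tsum h5
      _ = M * ∑' i, ENNReal.ofReal (r i ^ (p * n)) := ENNReal.tsum_mul_left
      _ ≤ _ := by gcongr
  have hGt : m G ≠ ∞ := by
    have := hkey 1 one_pos
    exact (this.trans_lt (ENNReal.mul_lt_top hM.lt_top ENNReal.ofReal_lt_top)).ne
  have hg0 : 0 < (m G).toReal := ENNReal.toReal_pos hpos.ne' hGt
  have h8 := hkey ((m G).toReal / (4 * (M.toReal + 1))) (by positivity)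
  have h9 : m G = ENNReal.ofReal (m G).toReal := (ENNReal.ofReal_toReal hGt).symm
  have h10 : M = ENNReal.ofReal M.toReal := (ENNReal.ofReal_toReal hM).symm
  rw [h9, h10, ← ENNReal.ofReal_mul ENNReal.toReal_nonneg] at h8
  have hM0 : 0 ≤ M.toReal := ENNReal.toReal_nonneg
  rw [ENNReal.toReal_ofReal hM0, ENNReal.toReal_ofReal hg0.le,
    ENNReal.ofReal_le_ofReal_iff (by positivity)] at h8
  have h11 : M.toReal * (2 * ((m G).toReal / (4 * (M.toReal + 1)))) ≤ (m G).toReal / 2 := by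
    have : M.toReal / (M.toReal + 1) ≤ 1 := by
      rw [div_le_one (by linarith)]
      linarith
    calc M.toReal * (2 * ((m G).toReal / (4 * (M.toReal + 1))))
        = (M.toReal / (M.toReal + 1)) * ((m G).toReal / 2) := by
          field_simp
          ring
      _ ≤ 1 * ((m G).toReal / 2) := by gcongr
      _ = _ := one_mul _
  linarith

theorem measurable_pt {d : ℕ} {a : (Fin d → ℝ) → Fin d → ℝ} (ha : Measurable a)
    (l : Fin d → ℝ) : Measurable (fun x : (Fin d → ℝ) × ℝ => pt a l x.1 x.2) := by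
  have h1 : Measurable (fun x : (Fin d → ℝ) × ℝ =>
      (Fin.snoc (fun i => a x.1 i + (l i + x.2) * x.1 i) x.2 : Fin (d + 1) → ℝ)) := by
    rw [measurable_pi_iff]
    intro j
    refine Fin.lastCases ?_ (fun i => ?_) j
    · simp only [Fin.snoc_last]
      exact measurable_snd
    · simp only [Fin.snoc_castSucc]
      have hai : Measurable (fun x : (Fin d → ℝ) × ℝ => a x.1 i) :=
        (measurable_pi_apply i).comp (ha.comp measurable_fst)
      exact hai.add (by fun_prop)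
  exact (MeasurableEquiv.toLp 2 (Fin (d + 1) → ℝ)).measurable.comp h1

/-- All perturbations that are good for all parameters. -/
theorem ae_good {d : ℕ} {a : (Fin d → ℝ) → Fin d → ℝ} (ha : Measurable a) :
    ∀ᵐ l : Fin d → ℝ, ∀ k N : ℕ, ∀ᵐ x ∂((nud d (N : ℝ)).prod (nu (N : ℝ))),
      ∫⁻ y : (Fin d → ℝ) × ℝ, ker (1 - 1 / ((k : ℝ) + 2)) (pt a l x.1 x.2) (pt a l y.1 y.2)
        ∂((nud d (N : ℝ)).prod (nu (N : ℝ))) < ∞ := by
  rw [ae_all_iff]
  intro k
  rw [ae_all_iff]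
  intro N
  have hp0 : (0 : ℝ) < 1 - 1 / ((k : ℝ) + 2) := by
    have hk : (0 : ℝ) ≤ k := Nat.cast_nonneg k
    have : 1 / ((k : ℝ) + 2) < 1 := by
      rw [div_lt_one (by linarith)]
      linarith
    linarith
  have hp1 : 1 - 1 / ((k : ℝ) + 2) < 1 := by
    have hk : (0 : ℝ) ≤ k := Nat.cast_nonneg k
    have : 0 < 1 / ((k : ℝ) + 2) := by positivity
    linarith
  have hU : (⋃ R : ℕ, (univ.pi fun _ : Fin d => Icc (-(R : ℝ)) R)) = univ := by
    rw [eq_univ_iff_forall]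
    intro l
    obtain ⟨R, hR⟩ := exists_nat_ge ‖l‖
    refine mem_iUnion.2 ⟨R, ?_⟩
    rw [mem_univ_pi]
    intro i
    have h1 : |l i| ≤ R := by
      have := norm_le_pi_norm l i
      rw [Real.norm_eq_abs] at this
      exact this.trans hR
    exact ⟨(abs_le.1 h1).1, (abs_le.1 h1).2⟩
  rw [← Measure.restrict_univ (μ := (volume : Measure (Fin d → ℝ))), ← hU,
    ae_restrict_iUnion_iff]
  intro R
  rw [← nud_eq]
  exact ae_pot hp0 hp1 ha R N

/-- **Almost every diagonal perturbation of a measurable family of lines.** -/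
theorem main {d : ℕ} {a : (Fin d → ℝ) → Fin d → ℝ} (ha : Measurable a) :
    ∀ᵐ l : Fin d → ℝ, ∀ (S : Set (Fin d → ℝ)) (K : Set (E (d + 1))), 0 < volume S →
      (∀ v ∈ S, 0 < volume {t : ℝ | pt a l v t ∈ K}) → dimH K = (d + 1 : ℕ) := by
  filter_upwards [ae_good ha] with l hl S K hS hK
  apply le_antisymm
  · have h := dimH_mono (subset_univ K)
    rw [Real.dimH_univ_eq_finrank] at h
    simpa using h
  · by_contra hlt
    push Not at hlt
    obtain ⟨s, hs1, hs2⟩ := ENNReal.lt_iff_exists_nnreal_btwn.1 hlt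
    have hs2' : s < ((d + 1 : ℕ) : ℝ≥0) := by exact_mod_cast hs2
    have hs2'' : (s : ℝ) < (d : ℝ) + 1 := by exact_mod_cast hs2'
    -- choose the exponent
    obtain ⟨k, hk⟩ : ∃ k : ℕ, (s : ℝ) < (1 - 1 / ((k : ℝ) + 2)) * ((d : ℝ) + 1) := by
      have hd : (0 : ℝ) < (d : ℝ) + 1 := by positivity
      obtain ⟨k, hk⟩ := exists_nat_gt (((d : ℝ) + 1) / ((d : ℝ) + 1 - s))
      refine ⟨k, ?_⟩
      have hds : 0 < (d : ℝ) + 1 - s := by linarith
      rw [div_lt_iff₀ hds] at hk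
      have hk0 : (0 : ℝ) ≤ k := Nat.cast_nonneg k
      have h1 : 1 / ((k : ℝ) + 2) * ((d : ℝ) + 1) < (d : ℝ) + 1 - s := by
        rw [one_div_mul_eq_div, div_lt_iff₀ (by linarith)]
        nlinarith
      linarith
    set p : ℝ := 1 - 1 / ((k : ℝ) + 2) with hp
    have hp0 : 0 < p := by
      have hk0 : (0 : ℝ) ≤ k := Nat.cast_nonneg k
      have : 1 / ((k : ℝ) + 2) < 1 := by
        rw [div_lt_one (by linarith)]
        linarith
      linarith
    have hq0 : 0 ≤ p * ((d + 1 : ℕ) : ℝ) := by positivity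
    obtain ⟨q, hq⟩ : ∃ q : ℝ≥0, (q : ℝ) = p * ((d + 1 : ℕ) : ℝ) :=
      ⟨Real.toNNReal (p * ((d + 1 : ℕ) : ℝ)), Real.coe_toNNReal _ hq0⟩
    have hsq : s ≤ q := by
      rw [← NNReal.coe_le_coe, hq]
      push_cast
      exact hk.le
    have hz : μH[p * ((d + 1 : ℕ) : ℝ)] K = 0 := by
      have h1 : dimH K < (q : ℝ≥0∞) := hs1.trans_le (ENNReal.coe_le_coe.2 hsq)
      have h2 := hausdorffMeasure_of_dimH_lt h1
      rwa [hq] at h2
    -- the parameter set
    set Ω : Set ((Fin d → ℝ) × ℝ) := {x | pt a l x.1 x.2 ∈ K} with hΩ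
    have hΩ0 : ((volume : Measure (Fin d → ℝ)).prod (volume : Measure ℝ)) Ω ≠ 0 := by
      intro h0
      have h1 := Measure.measure_ae_null_of_prod_null h0
      rw [Filter.EventuallyEq, ae_iff] at h1
      have h2 : S ⊆ {v : Fin d → ℝ | ¬ (volume (Prod.mk v ⁻¹' Ω) = (0 : (Fin d → ℝ) → ℝ≥0∞) v)} := by
        intro v hv
        exact (hK v hv).ne'
      exact hS.ne' (measure_mono_null h2 h1)
    have hbox : ∀ N : ℕ, (nud d (N : ℝ)).prod (nu (N : ℝ)) =
        ((volume : Measure (Fin d → ℝ)).prod (volume : Measure ℝ)).restrict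
          ((univ.pi fun _ : Fin d => Icc (-(N : ℝ)) N) ×ˢ Icc (-(N : ℝ)) N) := by
      intro N
      rw [nud_eq, nu, Measure.prod_restrict]
    have hboxm : ∀ N : ℕ, MeasurableSet ((univ.pi fun _ : Fin d => Icc (-(N : ℝ)) N) ×ˢ
        Icc (-(N : ℝ)) (N : ℝ)) := fun N =>
      (MeasurableSet.univ_pi (fun _ => measurableSet_Icc)).prod measurableSet_Icc
    have hN : ∃ N : ℕ, 0 < ((nud d (N : ℝ)).prod (nu (N : ℝ))) Ω := by
      by_contra hcon
      push Not at hcon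
      apply hΩ0
      refine measure_mono_null (t := ⋃ N : ℕ, Ω ∩ ((univ.pi fun _ : Fin d => Icc (-(N : ℝ)) N) ×ˢ
        Icc (-(N : ℝ)) (N : ℝ))) ?_ (measure_iUnion_null (fun N => ?_))
      · intro x hx
        obtain ⟨N, hN⟩ := exists_nat_ge (max ‖x.1‖ ‖x.2‖)
        refine mem_iUnion.2 ⟨N, hx, ?_, ?_⟩
        · rw [mem_univ_pi]
          intro i
          have h1 : |x.1 i| ≤ N := by
            have := norm_le_pi_norm x.1 i
            rw [Real.norm_eq_abs] at this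
            exact this.trans ((le_max_left _ _).trans hN)
          exact ⟨(abs_le.1 h1).1, (abs_le.1 h1).2⟩
        · have h1 : |x.2| ≤ N := by
            rw [← Real.norm_eq_abs]
            exact (le_max_right _ _).trans hN
          exact ⟨(abs_le.1 h1).1, (abs_le.1 h1).2⟩
      · have h1 := hcon N
        rw [hbox, Measure.restrict_apply' (hboxm N)] at h1
        exact le_antisymm h1 zero_le
    obtain ⟨N, hN⟩ := hN
    set m := (nud d (N : ℝ)).prod (nu (N : ℝ)) with hm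
    set P : (Fin d → ℝ) × ℝ → ℝ≥0∞ := fun x => ∫⁻ y : (Fin d → ℝ) × ℝ,
      ker p (pt a l x.1 x.2) (pt a l y.1 y.2) ∂m with hPdef
    have hfin : ∀ᵐ x ∂m, P x < ∞ := hl k N
    have hM : ∃ M : ℕ, 0 < m (Ω ∩ {x | P x ≤ M}) := by
      by_contra hcon
      push Not at hcon
      have h1 : m (⋃ M : ℕ, Ω ∩ {x | P x ≤ M}) = 0 :=
        measure_iUnion_null (fun M => le_antisymm (hcon M) zero_le)
      have h2 : Ω ⊆ (⋃ M : ℕ, Ω ∩ {x | P x ≤ M}) ∪ {x | ¬ P x < ∞} := by
        intro x hx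
        by_cases hPx : P x < ∞
        · left
          obtain ⟨M, hM⟩ := ENNReal.exists_nat_gt hPx.ne
          exact mem_iUnion.2 ⟨M, hx, hM.le⟩
        · right; exact hPx
      have h3 : m {x | ¬ P x < ∞} = 0 := ae_iff.1 hfin
      exact hN.ne' (measure_mono_null h2 (measure_union_null h1 h3))
    obtain ⟨M, hM⟩ := hM
    exact mass m (Φ := fun x => pt a l x.1 x.2) hp0 (Nat.succ_pos d)
      (G := Ω ∩ {x | P x ≤ M}) (K := K) (measurable_pt ha l) (ENNReal.natCast_ne_top M)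
      (fun x hx => hx.2) (fun x hx => hx.1) hM hz

end Pool.Agent.H023R3.KG
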