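import Pool.Agent.H742R2.Kk.Step
import Pool.Agent.H742R2.Kk.Planar
import Pool.Agent.H742R2.Kk.Sphere

set_option autoImplicit false

/-!
# Kakeya sets whose segments lie on a reducible family of lines

From the maximal estimate for reducible families (starting files `H742R2/Kk`) to Hausdorff content
and volumes of neighbourhoods.
-/

open MeasureTheory Set Filter Topology ENNReal NNReal Metric

namespace Pool.Agent.H023R3.KS

open Pool.Agent.H742R2.Kk

/-- Lower bound for the volume of the part of a tube over a set of heights. -/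
theorem vol_sub (m : ℕ) : ∃ c : ℝ, 0 < c ∧ ∀ (δ : ℝ) (e b : E (m + 1)) (A : Set ℝ), 0 < δ →
    ‖e‖ = 1 → MeasurableSet A →
    ENNReal.ofReal (c * δ ^ m) * volume A ≤ volume {y : E (m + 1) | inner ℝ y e ∈ A ∧
      ‖(y - b) - (inner ℝ (y - b) e : ℝ) • e‖ ≤ δ} := by
  refine ⟨(2 / (m + 1)) ^ m, by positivity, ?_⟩
  intro δ e a A hδ he hA
  have hon : Orthonormal ℝ (({0} : Set (Fin (m + 1))).domRestrict (fun _ => e)) := by
    rw [orthonormal_iff_ite]
    rintro ⟨i, hi⟩ ⟨j, hj⟩
    simp only [mem_singleton_iff] at hi hj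
    subst hi; subst hj
    change (inner ℝ e e : ℝ) = _
    rw [real_inner_self_eq_norm_sq, he]
    simp
  obtain ⟨b, hb⟩ := hon.exists_orthonormalBasis_extension_of_card_eq (by simp)
  have hb0 : b 0 = e := hb 0 rfl
  set B : Set (Fin (m + 1) → ℝ) := Set.pi univ (Fin.cons A (fun i : Fin m =>
    Icc (b.repr a i.succ - δ / (m + 1)) (b.repr a i.succ + δ / (m + 1)))) with hB
  have hBm : MeasurableSet B := by
    apply MeasurableSet.univ_pi
    intro i
    refine Fin.cases ?_ ?_ i
    · simpa using hA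
    · intro i
      simp only [Fin.cons_succ]
      exact measurableSet_Icc
  have hvolB : volume B = ENNReal.ofReal ((2 / (m + 1)) ^ m * δ ^ m) * volume A := by
    rw [hB, volume_pi_pi]
    rw [Fin.prod_univ_succ]
    simp only [Fin.cons_zero, Fin.cons_succ, Real.volume_Icc]
    rw [mul_comm]
    congr 1
    have hnn : 0 ≤ 2 * (δ / (m + 1)) := by positivity
    have : ∀ i : Fin m, ENNReal.ofReal (b.repr a i.succ + δ / (m + 1) -
        (b.repr a i.succ - δ / (m + 1))) = ENNReal.ofReal (2 * (δ / (m + 1))) := by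
      intro i
      congr 1
      ring
    simp only [this, Finset.prod_const, Finset.card_univ, Fintype.card_fin]
    rw [← ENNReal.ofReal_pow hnn]
    congr 1
    rw [← mul_pow]
    congr 1
    ring
  have hmp : MeasurePreserving (fun y : E (m + 1) => (b.repr y).ofLp) volume volume := by
    have h2 := b.measurePreserving_repr
    have h3 := PiLp.volume_preserving_ofLp (Fin (m + 1))
    exact h3.comp h2
  rw [← hvolB, ← hmp.measure_preimage hBm.nullMeasurableSet]
  apply measure_mono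
  intro y hy
  simp only [mem_preimage, hB, mem_univ_pi] at hy
  set v := y - a with hv
  have hy0 : (inner ℝ y e : ℝ) = b.repr y 0 := by
    rw [b.repr_apply_apply, hb0, real_inner_comm]
  have hv0 : (inner ℝ v e : ℝ) = b.repr v 0 := by
    rw [b.repr_apply_apply, hb0, real_inner_comm]
  have hsum : v = b.repr v 0 • e + ∑ i : Fin m, b.repr v i.succ • b i.succ := by
    conv_lhs => rw [← b.sum_repr v]
    rw [Fin.sum_univ_succ, hb0]
  refine ⟨?_, ?_⟩
  · have := hy 0
    rw [hy0]
    simpa using this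
  · have : v - (inner ℝ v e : ℝ) • e = ∑ i : Fin m, b.repr v i.succ • b i.succ := by
      rw [hv0]
      nth_rewrite 1 [hsum]
      abel
    rw [this]
    calc ‖∑ i : Fin m, b.repr v i.succ • b i.succ‖ ≤ ∑ i : Fin m, ‖b.repr v i.succ • b i.succ‖ :=
          norm_sum_le _ _
      _ ≤ ∑ i : Fin m, δ / (m + 1) := by
          apply Finset.sum_le_sum
          intro i _
          rw [norm_smul, b.norm_eq_one, mul_one, Real.norm_eq_abs, abs_le]
          have h := hy i.succ
          simp only [Fin.cons_succ, mem_Icc] at h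
          have h2 : b.repr v i.succ = b.repr y i.succ - b.repr a i.succ := by
            rw [hv, map_sub]
            rfl
          rw [h2]
          constructor <;> linarith [h.1, h.2]
      _ ≤ δ := by
          rw [Finset.sum_const, Finset.card_univ, Fintype.card_fin, nsmul_eq_mul]
          rw [mul_div_assoc', div_le_iff₀ (by positivity)]
          nlinarith

/-- Lower bound for the normalised integral over a tube piece. -/
theorem wav_ge {m : ℕ} {c : ℝ} (hc : 0 < c)
    (hvol : ∀ (δ : ℝ) (e b : E (m + 1)) (A : Set ℝ), 0 < δ →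
    ‖e‖ = 1 → MeasurableSet A →
    ENNReal.ofReal (c * δ ^ m) * volume A ≤ volume {y : E (m + 1) | inner ℝ y e ∈ A ∧
      ‖(y - b) - (inner ℝ (y - b) e : ℝ) • e‖ ≤ δ})
    {δ : ℝ} (hδ : 0 < δ) (a : E (m + 1) → E (m + 1)) {e : E (m + 1)} (he : ‖e‖ = 1) (k : ℤ)
    {A : Set ℝ} (hA : MeasurableSet A) {F : Set (E (m + 1))} (hF : MeasurableSet F)
    (hsub : ∀ u ∈ A, (k : ℝ) ≤ u ∧ u ≤ k + 1 ∧
      closedBall (a e + (u - inner ℝ (a e) e : ℝ) • e) δ ⊆ F) :
    ENNReal.ofReal c * volume A ≤ wav δ a k (F.indicator 1) e := by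
  have hD0 : ENNReal.ofReal δ ^ m ≠ 0 := pow_ne_zero _ (by simpa using hδ)
  have hDt : ENNReal.ofReal δ ^ m ≠ ∞ := ENNReal.pow_ne_top ENNReal.ofReal_ne_top
  have h1 := hvol δ e (a e) A hδ he hA
  have h2 : ∫⁻ p in tub δ e (a e) k, F.indicator 1 p = volume (F ∩ tub δ e (a e) k) := by
    rw [lintegral_indicator_one hF, Measure.restrict_apply hF]
  have h3 : {y : E (m + 1) | inner ℝ y e ∈ A ∧
      ‖(y - a e) - (inner ℝ (y - a e) e : ℝ) • e‖ ≤ δ} ⊆ F ∩ tub δ e (a e) k := by
    rintro y ⟨hy1, hy2⟩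
    obtain ⟨h4, h5, h6⟩ := hsub _ hy1
    refine ⟨h6 ?_, h4, h5, hy2⟩
    rw [mem_closedBall, dist_eq_norm]
    have h7 : y - (a e + (inner ℝ y e - inner ℝ (a e) e : ℝ) • e)
        = (y - a e) - (inner ℝ (y - a e) e : ℝ) • e := by
      rw [inner_sub_left]
      abel
    rw [h7]
    exact hy2
  unfold wav
  rw [h2]
  calc ENNReal.ofReal c * volume A
      = (ENNReal.ofReal δ ^ m)⁻¹ * (ENNReal.ofReal (c * δ ^ m) * volume A) := by
        rw [ENNReal.ofReal_mul hc.le, ENNReal.ofReal_pow hδ.le]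
        rw [show ENNReal.ofReal c * ENNReal.ofReal δ ^ m * volume A
          = ENNReal.ofReal δ ^ m * (ENNReal.ofReal c * volume A) by ring]
        rw [← mul_assoc, ENNReal.inv_mul_cancel hD0 hDt, one_mul]
    _ ≤ _ := by
        gcongr
        exact h1.trans (measure_mono h3)

/-- The maximal function of a set. -/
noncomputable def MF {m : ℕ} (δ : ℝ) (a : E (m + 1) → E (m + 1)) (F : Set (E (m + 1)))
    (e : E (m + 1)) : ℝ≥0∞ := ⨆ k : ℤ, wav δ a k (F.indicator 1) e

theorem meas_MF {m : ℕ} {δ : ℝ} {a : E (m + 1) → E (m + 1)} (ha : Measurable a)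
    {F : Set (E (m + 1))} (hF : MeasurableSet F) : Measurable (MF δ a F) := by
  unfold MF
  apply Measurable.iSup
  intro k
  have h0 : Measurable (Function.uncurry (fun (_ : ℝ) (y : E (m+1)) =>
      F.indicator (1 : E (m+1) → ℝ≥0∞) y)) :=
    (measurable_one.indicator hF).comp measurable_snd
  have h1 : Measurable (fun x : ℝ × E (m+1) => wav δ a k (F.indicator 1) x.2) :=
    measurable_wav (δ := δ) ha k h0
  exact h1.comp (measurable_prodMk_left (x := (0:ℝ)))

theorem int_MF (m : ℕ) : ∃ C : ℝ, 0 < C ∧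
    ∀ (a : E (m + 1) → E (m + 1)) (δ : ℝ) (F : Set (E (m + 1))),
      Reducible (m + 1) a → 0 < δ → δ < 1 → MeasurableSet F →
      ∫⁻ e : sphere (0 : E (m + 1)) 1, MF δ a F e ^ (m + 1)
          ∂(volume : Measure (E (m + 1))).toSphere
        ≤ ENNReal.ofReal (C * (1 + Real.log (1 / δ)) ^ m) * volume F := by
  obtain ⟨C, hC, hP⟩ := planar
  obtain ⟨D, hD, hK⟩ := kb_all hC hP m
  refine ⟨(m+1) * D, by positivity, ?_⟩
  intro a δ F ha hδ hδ1 hF
  have hlog : 0 ≤ Real.log (1 / δ) := Real.log_nonneg (by rw [le_div_iff₀ hδ]; linarith)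
  have hFm : Measurable (F.indicator (1 : E (m+1) → ℝ≥0∞)) := measurable_one.indicator hF
  have hGm : Measurable (fun e => MF δ a F e ^ (m+1)) := (meas_MF ha.measurable hF).pow_const _
  have h1 := hK δ a hδ hδ1 ha _ hFm
  have h2 := sphere_le_ball m hGm
  have h3 : ∫⁻ p, F.indicator (1 : E (m+1) → ℝ≥0∞) p ^ (m+1) = volume F := by
    rw [← lintegral_indicator_one hF]
    apply lintegral_congr
    intro p
    by_cases hp : p ∈ F
    · rw [indicator_of_mem hp]; simp
    · rw [indicator_of_notMem hp]; simp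
  rw [h3] at h1
  calc ∫⁻ e : sphere (0 : E (m + 1)) 1, MF δ a F e ^ (m + 1)
          ∂(volume : Measure (E (m + 1))).toSphere
      ≤ (m + 1) * ∫⁻ x in closedBall (0 : E (m + 1)) 1, MF δ a F (‖x‖⁻¹ • x) ^ (m+1) := h2
    _ ≤ (m + 1) * (ENNReal.ofReal (D * (1 + Real.log (1 / δ)) ^ m) * volume F) := by
        gcongr
        exact h1
    _ = _ := by
        have e1 : ((m+1) * D) * (1 + Real.log (1 / δ)) ^ m
            = ((m+1) * (D * (1 + Real.log (1 / δ)) ^ m)) := by ring
        rw [e1, ENNReal.ofReal_mul (p := (m:ℝ) + 1) (by positivity)]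
        have e2 : ENNReal.ofReal ((m:ℝ) + 1) = (m:ℝ≥0∞) + 1 := by
          rw [ENNReal.ofReal_add (by positivity) (by norm_num)]
          simp
        rw [e2]
        ring

/-- If the unit interval at `u₀` is covered by sets of heights, one of them is large in one of the
integer windows. -/
theorem seg_cover {ι : Type*} [Countable ι] (u₀ : ℝ) (A : ι → Set ℝ)
    (hcov : Icc u₀ (u₀ + 1) ⊆ ⋃ j, A j) (w : ι → ℝ≥0∞) (hw : ∑' j, w j < 1) :
    ∃ (j : ι) (k : ℤ), w j / 2 ≤ volume (A j ∩ Icc (k : ℝ) (k + 1)) := by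
  by_contra hcon
  push Not at hcon
  set k := ⌊u₀⌋ with hk
  have hf1 := Int.floor_le u₀
  have hf2 := Int.lt_floor_add_one u₀
  rw [← hk] at hf1 hf2
  have h1 : (1 : ℝ≥0∞) ≤ ∑' j, w j := by
    calc (1 : ℝ≥0∞) = volume (Icc u₀ (u₀ + 1)) := by
          rw [Real.volume_Icc]; simp
      _ ≤ volume (⋃ j, (A j ∩ Icc (k : ℝ) (k + 1) ∪ A j ∩ Icc ((k + 1 : ℤ) : ℝ) ((k + 1 : ℤ) + 1))) := by
          apply measure_mono
          intro u hu
          obtain ⟨j, hj⟩ := mem_iUnion.1 (hcov hu)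
          refine mem_iUnion.2 ⟨j, ?_⟩
          by_cases h : u ≤ (k : ℝ) + 1
          · left
            exact ⟨hj, by linarith [hu.1], h⟩
          · right
            push Not at h
            refine ⟨hj, ?_, ?_⟩
            · push_cast; linarith
            · push_cast; linarith [hu.2]
      _ ≤ ∑' j, volume (A j ∩ Icc (k : ℝ) (k + 1) ∪ A j ∩ Icc ((k + 1 : ℤ) : ℝ) ((k + 1 : ℤ) + 1)) :=
          measure_iUnion_le _
      _ ≤ ∑' j, w j := by
          apply ENNReal.tsum_le_tsum
          intro j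
          refine (measure_union_le _ _).trans ?_
          calc _ ≤ w j / 2 + w j / 2 := add_le_add (hcon j k).le (hcon j (k+1)).le
            _ = w j := ENNReal.add_halves _
  exact absurd hw (not_lt.2 h1)

/-- The set `K` contains, for every direction in `S`, a unit segment on the line `a e + ℝ e`. -/
def HasSegs {n : ℕ} (a : E n → E n) (S : Set (sphere (0 : E n) 1)) (K : Set (E n)) : Prop :=
  ∀ e ∈ S, ∃ s : ℝ, ∀ t ∈ Icc (0 : ℝ) 1, a e + (s + t) • (e : E n) ∈ K

/-- Heights along the line. -/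
theorem heights {n : ℕ} {a : E n → E n} {S : Set (sphere (0 : E n) 1)} {K : Set (E n)}
    (h : HasSegs a S K) {e : sphere (0 : E n) 1} (he : e ∈ S) :
    ∃ u₀ : ℝ, ∀ u ∈ Icc u₀ (u₀ + 1),
      a e + (u - inner ℝ (a e) (e : E n) : ℝ) • (e : E n) ∈ K := by
  obtain ⟨s, hs⟩ := h e he
  refine ⟨s + inner ℝ (a e) (e : E n), ?_⟩
  intro u hu
  have h1 := hs (u - (s + inner ℝ (a e) (e : E n))) ⟨by linarith [hu.1], by linarith [hu.2]⟩
  have h2 : s + (u - (s + inner ℝ (a e) (e : E n))) = u - inner ℝ (a e) (e : E n) := by ring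
  rwa [h2] at h1

/-- The heights of the points of `K` on the line number `e`. -/
def hts {n : ℕ} (a : E n → E n) (K : Set (E n)) (e : E n) : Set ℝ :=
  {u | a e + (u - inner ℝ (a e) e : ℝ) • e ∈ K}

theorem cover_len {ι : Type*} [Countable ι] {P : Set ℝ} {lam : ℝ≥0∞} {k : ℤ} (A : ι → Set ℝ)
    (hlam : lam ≠ 0) (hlam' : lam ≠ ∞)
    (hP : lam ≤ volume (P ∩ Icc (k : ℝ) (k + 1))) (hcov : P ⊆ ⋃ j, A j)
    (w : ι → ℝ≥0∞) (hw : ∑' j, w j < 1) :
    ∃ j : ι, lam * w j ≤ volume (A j ∩ Icc (k : ℝ) (k + 1)) := by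
  by_contra hcon
  push Not at hcon
  have h1 : lam ≤ lam * ∑' j, w j := by
    calc lam ≤ volume (P ∩ Icc (k : ℝ) (k + 1)) := hP
      _ ≤ volume (⋃ j, A j ∩ Icc (k : ℝ) (k + 1)) := by
          apply measure_mono
          rintro u ⟨hu1, hu2⟩
          obtain ⟨j, hj⟩ := mem_iUnion.1 (hcov hu1)
          exact mem_iUnion.2 ⟨j, hj, hu2⟩
      _ ≤ ∑' j, volume (A j ∩ Icc (k : ℝ) (k + 1)) := measure_iUnion_le _
      _ ≤ ∑' j, lam * w j := ENNReal.tsum_le_tsum (fun j => (hcon j).le)
      _ = lam * ∑' j, w j := ENNReal.tsum_mul_left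
  have h2 : lam * ∑' j, w j < lam * 1 := (ENNReal.mul_lt_mul_iff_right hlam hlam').2 hw
  rw [mul_one] at h2
  exact absurd h2 (not_lt.2 h1)

theorem segs_len {n : ℕ} {a : E n → E n} {S : Set (sphere (0 : E n) 1)} {K : Set (E n)}
    (h : HasSegs a S K) {e : sphere (0 : E n) 1} (he : e ∈ S) :
    ∃ k : ℤ, ENNReal.ofReal (1 / 4) ≤ volume (hts a K e ∩ Icc (k : ℝ) (k + 1)) := by
  obtain ⟨u₀, hu⟩ := heights h he
  have hw : ∑' _ : Unit, (ENNReal.ofReal (1 / 2)) < 1 := by
    rw [tsum_fintype]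
    simp only [Finset.univ_unique, Finset.sum_const, Finset.card_singleton, one_smul]
    rw [← ENNReal.ofReal_one]
    exact (ENNReal.ofReal_lt_ofReal_iff one_pos).2 (by norm_num)
  obtain ⟨_, k, hk⟩ := seg_cover u₀ (fun _ : Unit => Icc u₀ (u₀ + 1))
    (fun u hu => mem_iUnion.2 ⟨(), hu⟩) (fun _ => ENNReal.ofReal (1 / 2)) hw
  refine ⟨k, ?_⟩
  calc ENNReal.ofReal (1 / 4) = ENNReal.ofReal (1 / 2) / 2 := by
        rw [show (1 / 4 : ℝ) = 1 / 2 / 2 by norm_num, ENNReal.ofReal_div_of_pos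
          (by norm_num : (0 : ℝ) < 2)]
        simp
    _ ≤ _ := hk
    _ ≤ _ := by
        apply measure_mono
        rintro u ⟨hu1, hu2⟩
        exact ⟨hu u hu1, hu2⟩

/-- Lower bound for the measure of neighbourhoods. -/
theorem mink (m : ℕ) : ∃ c : ℝ, 0 < c ∧
    ∀ (a : E (m + 1) → E (m + 1)) (S : Set (sphere (0 : E (m + 1)) 1)) (K : Set (E (m + 1))),
      Reducible (m + 1) a → HasSegs a S K → ∀ δ : ℝ, 0 < δ → δ < 1 →
      ENNReal.ofReal (c / (1 + Real.log (1 / δ)) ^ m) * (volume : Measure (E (m + 1))).toSphere S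
        ≤ volume (thickening δ K) := by
  obtain ⟨c, hc, hvol⟩ := vol_sub m
  obtain ⟨C, hC, hint⟩ := int_MF m
  refine ⟨(c / 4) ^ (m + 1) / (C * 2 ^ m), by positivity, ?_⟩
  intro a S K ha hseg δ hδ hδ1
  have hlog : 0 ≤ Real.log (1 / δ) := Real.log_nonneg (by rw [le_div_iff₀ hδ]; linarith)
  set F := thickening δ K with hF
  have hFm : MeasurableSet F := isOpen_thickening.measurableSet
  have h1 := hint a (δ / 2) F ha (by positivity) (by linarith) hFm
  have hG : ∀ e ∈ S, ENNReal.ofReal (c / 4) ≤ MF (δ / 2) a F (e : E (m + 1)) := by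
    intro e he
    obtain ⟨u₀, hu⟩ := heights hseg he
    have hw : ∑' _ : Unit, (ENNReal.ofReal (1 / 2)) < 1 := by
      rw [tsum_fintype]
      simp only [Finset.univ_unique, Finset.sum_const, Finset.card_singleton, one_smul]
      rw [← ENNReal.ofReal_one]
      exact (ENNReal.ofReal_lt_ofReal_iff one_pos).2 (by norm_num)
    obtain ⟨_, k, hk⟩ := seg_cover u₀ (fun _ : Unit => Icc u₀ (u₀ + 1))
      (fun u hu => mem_iUnion.2 ⟨(), hu⟩) (fun _ => ENNReal.ofReal (1 / 2)) hw
    have hA : MeasurableSet (Icc u₀ (u₀ + 1) ∩ Icc (k : ℝ) (k + 1)) :=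
      measurableSet_Icc.inter measurableSet_Icc
    have h2 := wav_ge hc hvol (half_pos hδ) a (e := (e : E (m + 1))) (by simp) k hA hFm ?_
    · calc ENNReal.ofReal (c / 4) = ENNReal.ofReal c * (ENNReal.ofReal (1 / 2) / 2) := by
            rw [show c / 4 = c * (1 / 2 / 2) by ring, ENNReal.ofReal_mul hc.le]
            congr 1
            rw [ENNReal.ofReal_div_of_pos (by norm_num : (0 : ℝ) < 2)]
            simp
        _ ≤ ENNReal.ofReal c * volume (Icc u₀ (u₀ + 1) ∩ Icc (k : ℝ) (k + 1)) := by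
            gcongr
        _ ≤ _ := h2
        _ ≤ _ := le_iSup (fun k : ℤ => wav (δ / 2) a k (F.indicator 1) (e : E (m + 1))) k
    · rintro u ⟨hu1, hu2⟩
      refine ⟨hu2.1, hu2.2, ?_⟩
      intro y hy
      rw [hF, mem_thickening_iff]
      refine ⟨_, hu u hu1, ?_⟩
      rw [mem_closedBall] at hy
      linarith
  have hSG : (volume : Measure (E (m + 1))).toSphere S * ENNReal.ofReal (c / 4) ^ (m + 1) ≤
      ∫⁻ e : sphere (0 : E (m + 1)) 1, MF (δ / 2) a F e ^ (m + 1)
          ∂(volume : Measure (E (m + 1))).toSphere := by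
    have hm : Measurable (fun e : sphere (0 : E (m + 1)) 1 => MF (δ / 2) a F e ^ (m + 1)) :=
      ((meas_MF ha.measurable hFm).comp measurable_subtype_coe).pow_const _
    refine le_trans ?_ (mul_meas_ge_le_lintegral hm (ENNReal.ofReal (c / 4) ^ (m + 1)))
    rw [mul_comm]
    gcongr
    intro e he
    exact pow_le_pow_left' (hG e he) _
  have h3 := hSG.trans h1
  set σS := (volume : Measure (E (m + 1))).toSphere S with hσ
  have h4 : 1 + Real.log (1 / (δ / 2)) ≤ 2 * (1 + Real.log (1 / δ)) := by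
    have : Real.log (1 / (δ / 2)) = Real.log 2 + Real.log (1 / δ) := by
      rw [show 1 / (δ / 2) = 2 * (1 / δ) by field_simp]
      rw [Real.log_mul (by norm_num) (by positivity)]
    rw [this]
    have := Real.log_two_lt_d9
    linarith
  have h4' : 0 < 1 + Real.log (1 / δ) := by linarith
  have h40 : 0 ≤ 1 + Real.log (1 / (δ / 2)) := by
    have : 0 ≤ Real.log (1 / (δ / 2)) := Real.log_nonneg (by rw [le_div_iff₀ (by positivity)]; linarith)
    linarith
  have h5 : ENNReal.ofReal (C * (1 + Real.log (1 / (δ / 2))) ^ m) ≤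
      ENNReal.ofReal (C * 2 ^ m * (1 + Real.log (1 / δ)) ^ m) := by
    apply ENNReal.ofReal_le_ofReal
    rw [mul_assoc, ← mul_pow]
    gcongr
  have h6 : σS * ENNReal.ofReal (c / 4) ^ (m + 1) ≤
      ENNReal.ofReal (C * 2 ^ m * (1 + Real.log (1 / δ)) ^ m) * volume F :=
    h3.trans (by gcongr)
  have hP : 0 < C * 2 ^ m * (1 + Real.log (1 / δ)) ^ m := by positivity
  have hP0 : ENNReal.ofReal (C * 2 ^ m * (1 + Real.log (1 / δ)) ^ m) ≠ 0 := by
    simpa using hP
  calc ENNReal.ofReal ((c / 4) ^ (m + 1) / (C * 2 ^ m) / (1 + Real.log (1 / δ)) ^ m) * σS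
      = (ENNReal.ofReal (C * 2 ^ m * (1 + Real.log (1 / δ)) ^ m))⁻¹ *
        (σS * ENNReal.ofReal (c / 4) ^ (m + 1)) := by
        rw [div_div, div_eq_inv_mul, ENNReal.ofReal_mul (by positivity),
          ENNReal.ofReal_inv_of_pos hP, ENNReal.ofReal_pow (by positivity)]
        ring
    _ ≤ (ENNReal.ofReal (C * 2 ^ m * (1 + Real.log (1 / δ)) ^ m))⁻¹ *
        (ENNReal.ofReal (C * 2 ^ m * (1 + Real.log (1 / δ)) ^ m) * volume F) := by gcongr
    _ = volume F := by
        rw [← mul_assoc, ENNReal.inv_mul_cancel hP0 ENNReal.ofReal_ne_top, one_mul]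

theorem weights : ∃ c₀ : ℝ, 0 < c₀ ∧ ∑' j : ℕ, ENNReal.ofReal (c₀ / ((j : ℝ) + 1) ^ 2) < 1 := by
  have hs : Summable (fun j : ℕ => 1 / ((j : ℝ) + 1) ^ 2) := by
    have := (_root_.summable_nat_add_iff 1).2 (Real.summable_one_div_nat_pow.2 (by norm_num : 1 < 2))
    simpa using this
  set T := ∑' j : ℕ, 1 / ((j : ℝ) + 1) ^ 2 with hT
  have hT0 : 0 ≤ T := tsum_nonneg (fun j => by positivity)
  refine ⟨1 / (2 * (T + 1)), by positivity, ?_⟩
  have hs2 : Summable (fun j : ℕ => 1 / (2 * (T + 1)) / ((j : ℝ) + 1) ^ 2) := by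
    have := hs.mul_left (1 / (2 * (T + 1)))
    refine this.congr (fun j => ?_)
    ring
  rw [← ENNReal.ofReal_tsum_of_nonneg (fun j => by positivity) hs2]
  have h1 : ∑' j : ℕ, 1 / (2 * (T + 1)) / ((j : ℝ) + 1) ^ 2 = 1 / (2 * (T + 1)) * T := by
    rw [hT, ← _root_.tsum_mul_left]
    apply tsum_congr
    intro j
    ring
  rw [h1, ← ENNReal.ofReal_one]
  refine (ENNReal.ofReal_lt_ofReal_iff one_pos).2 ?_
  rw [one_div_mul_eq_div, div_lt_one (by positivity)]
  linarith

theorem real_bound (m : ℕ) {c c₀ C : ℝ} (hc : 0 < c) (hc₀ : 0 < c₀) (hC : 0 < C) :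
    ∃ C₁ : ℝ, 0 < C₁ ∧ ∀ (j : ℕ) (r : ℝ), 0 < r → r ≤ 1 / 2 → (1 / 2 : ℝ) ^ (j + 2) < r →
      r ≤ (1 / 2) ^ (j + 1) →
      (2 / (c * (c₀ / ((j : ℝ) + 1) ^ 2))) ^ (m + 1) *
        (C * (1 + Real.log (1 / (1 / 2) ^ (j + 1))) ^ m) * (2 * (1 / 2) ^ (j + 1)) ^ (m + 1)
      ≤ C₁ * (r ^ (m + 1) * Real.log (1 / r) ^ (3 * m + 2)) := by
  have hl2 : 0 < Real.log 2 := Real.log_pos (by norm_num)
  refine ⟨(2 / (c * c₀ * Real.log 2 ^ 2)) ^ (m + 1) * (C * (1 / Real.log 2 + 1) ^ m) *
    4 ^ (m + 1), by positivity, ?_⟩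
  intro j r hr hr2 hj1 hj2
  set L := Real.log (1 / r) with hL
  have hlogd : Real.log (1 / (1 / 2) ^ (j + 1)) = ((j : ℝ) + 1) * Real.log 2 := by
    rw [one_div, ← inv_pow, Real.log_pow]
    push_cast
    norm_num
  have h1 : ((j : ℝ) + 1) * Real.log 2 ≤ L := by
    rw [← hlogd, hL]
    apply Real.log_le_log (by positivity)
    exact one_div_le_one_div_of_le hr hj2
  have hj0 : (0 : ℝ) ≤ j := Nat.cast_nonneg j
  have h2 : Real.log 2 ≤ L := by nlinarith
  have hL0 : 0 < L := by linarith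
  have h3 : 1 + Real.log (1 / (1 / 2) ^ (j + 1)) ≤ (1 / Real.log 2 + 1) * L := by
    rw [hlogd]
    have : 1 ≤ 1 / Real.log 2 * L := by
      rw [one_div_mul_eq_div, le_div_iff₀ hl2]
      linarith
    linarith
  have h3' : 0 ≤ 1 + Real.log (1 / (1 / 2) ^ (j + 1)) := by
    rw [hlogd]
    positivity
  have h4 : 2 / (c * (c₀ / ((j : ℝ) + 1) ^ 2)) ≤ 2 / (c * c₀ * Real.log 2 ^ 2) * L ^ 2 := by
    have h41 : 2 / (c * (c₀ / ((j : ℝ) + 1) ^ 2)) = 2 / (c * c₀) * ((j : ℝ) + 1) ^ 2 := by
      field_simp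
    have h42 : 2 / (c * c₀ * Real.log 2 ^ 2) * L ^ 2 = 2 / (c * c₀) * (L / Real.log 2) ^ 2 := by
      field_simp
    rw [h41, h42]
    have h43 : (j : ℝ) + 1 ≤ L / Real.log 2 := by
      rw [le_div_iff₀ hl2]
      exact h1
    gcongr
  have h5 : 2 * (1 / 2 : ℝ) ^ (j + 1) ≤ 4 * r := by
    have : (1 / 2 : ℝ) ^ (j + 2) = (1 / 2) ^ (j + 1) * (1 / 2) := pow_succ _ _
    linarith
  calc _ ≤ (2 / (c * c₀ * Real.log 2 ^ 2) * L ^ 2) ^ (m + 1) *
        (C * ((1 / Real.log 2 + 1) * L) ^ m) * (4 * r) ^ (m + 1) := by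
        gcongr
    _ = _ := by
        rw [mul_pow, mul_pow, mul_pow]
        ring

/-- Lower bound for the Hausdorff-type content with the gauge `r^n (log (1/r))^(3n-1)`,
`n = m + 1`. -/
theorem content (m : ℕ) {lam : ℝ} (hlam : 0 < lam) : ∃ c : ℝ, 0 < c ∧
    ∀ (a : E (m + 1) → E (m + 1)) (S : Set (sphere (0 : E (m + 1)) 1)) (K : Set (E (m + 1))),
      Reducible (m + 1) a →
      (∀ e ∈ S, ∃ k : ℤ, ENNReal.ofReal lam ≤ volume (hts a K e ∩ Icc (k : ℝ) (k + 1))) → ∀ (x : ℕ → E (m + 1)) (r : ℕ → ℝ),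
      (∀ i, 0 < r i ∧ r i ≤ 1 / 2) → K ⊆ ⋃ i, closedBall (x i) (r i) →
      ENNReal.ofReal c * (volume : Measure (E (m + 1))).toSphere S
        ≤ ∑' i, ENNReal.ofReal (r i ^ (m + 1) * Real.log (1 / r i) ^ (3 * m + 2)) := by
  obtain ⟨c, hc, hvol⟩ := vol_sub m
  obtain ⟨C, hC, hint⟩ := int_MF m
  obtain ⟨c₀, hc₀, hw⟩ := weights
  obtain ⟨C₁, hC₁, hreal⟩ := real_bound m (c := 2 * lam * c) (by positivity) hc₀ hC
  set V := volume (ball (0 : E (m + 1)) 1) with hV
  have hV0 : V ≠ 0 := (measure_ball_pos volume _ one_pos).ne'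
  have hVt : V ≠ ∞ := measure_ball_lt_top.ne
  have hV' : 0 < V.toReal := ENNReal.toReal_pos hV0 hVt
  refine ⟨1 / (C₁ * V.toReal), by positivity, ?_⟩
  intro a S K ha hseg x r hr hcov
  have hex : ∀ i, ∃ j : ℕ, (1 / 2 : ℝ) ^ (j + 2) < r i ∧ r i ≤ (1 / 2) ^ (j + 1) := by
    intro i
    obtain ⟨n, hn1, hn2⟩ := exists_nat_pow_near_of_lt_one (hr i).1
      ((hr i).2.trans (by norm_num)) (by norm_num : (0 : ℝ) < 1 / 2) (by norm_num)
    rcases n with _ | n
    · exfalso
      have := (hr i).2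
      norm_num at hn1
      linarith
    · exact ⟨n, hn1, hn2⟩
  choose J hJ1 hJ2 using hex
  set A : ℕ → Set (E (m + 1)) := fun j => ⋃ i, ⋃ (_ : J i = j), closedBall (x i) (r i) with hA
  set F : ℕ → Set (E (m + 1)) := fun j =>
    ⋃ i, ⋃ (_ : J i = j), closedBall (x i) (2 * (1 / 2) ^ (j + 1)) with hF
  have hAm : ∀ j, MeasurableSet (A j) := fun j =>
    MeasurableSet.iUnion (fun i => MeasurableSet.iUnion (fun _ => measurableSet_closedBall))
  have hFm : ∀ j, MeasurableSet (F j) := fun j =>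
    MeasurableSet.iUnion (fun i => MeasurableSet.iUnion (fun _ => measurableSet_closedBall))
  set W : ℕ → ℝ := fun j => 2 / (2 * lam * c * (c₀ / ((j : ℝ) + 1) ^ 2)) with hW
  have hW0 : ∀ j, 0 < W j := fun j => by simp only [hW]; positivity
  set M : ℕ → E (m + 1) → ℝ≥0∞ := fun j e => MF ((1 / 2) ^ (j + 1)) a (F j) e with hM
  have hMm : ∀ j, Measurable (M j) := fun j => meas_MF ha.measurable (hFm j)
  have hδ0 : ∀ j : ℕ, (0 : ℝ) < (1 / 2) ^ (j + 1) := fun j => by positivity
  have hδ1 : ∀ j : ℕ, (1 / 2 : ℝ) ^ (j + 1) < 1 := fun j =>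
    pow_lt_one₀ (by norm_num) (by norm_num) (by omega)
  -- pointwise bound
  have hpt : ∀ e ∈ S, (1 : ℝ≥0∞) ≤ ∑' j, ENNReal.ofReal (W j) ^ (m + 1) *
      M j (e : E (m + 1)) ^ (m + 1) := by
    intro e he
    obtain ⟨k, hk0⟩ := hseg e he
    set φ : ℝ → E (m + 1) := fun u => a e + (u - inner ℝ (a e) (e : E (m + 1)) : ℝ) • (e : E (m + 1))
      with hφ
    have hφc : Continuous φ := by
      simp only [hφ]
      fun_prop
    obtain ⟨j, hk⟩ := cover_len (P := hts a K e) (fun j : ℕ => φ ⁻¹' (A j))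
      (by simpa using hlam) ENNReal.ofReal_ne_top hk0 (by
        intro u hu'
        have h1 := hcov hu'
        obtain ⟨i, hi⟩ := mem_iUnion.1 h1
        refine mem_iUnion.2 ⟨J i, ?_⟩
        simp only [hA, mem_preimage, mem_iUnion]
        exact ⟨i, rfl, hi⟩) (fun j => ENNReal.ofReal (c₀ / ((j : ℝ) + 1) ^ 2)) hw
    have hAk : MeasurableSet (φ ⁻¹' (A j) ∩ Icc (k : ℝ) (k + 1)) :=
      (hφc.measurable (hAm j)).inter measurableSet_Icc
    have h2 := wav_ge hc hvol (hδ0 j) a (e := (e : E (m + 1))) (by simp) k hAk (hFm j) ?_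
    · have h3 : ENNReal.ofReal c * (ENNReal.ofReal lam *
          ENNReal.ofReal (c₀ / ((j : ℝ) + 1) ^ 2)) ≤ M j e := by
        calc _ ≤ ENNReal.ofReal c * volume (φ ⁻¹' (A j) ∩ Icc (k : ℝ) (k + 1)) := by gcongr
          _ ≤ _ := h2
          _ ≤ _ := le_iSup (fun k : ℤ => wav ((1 / 2) ^ (j + 1)) a k ((F j).indicator 1)
              (e : E (m + 1))) k
      have h4 : (1 : ℝ≥0∞) ≤ ENNReal.ofReal (W j) * M j e := by
        calc (1 : ℝ≥0∞) = ENNReal.ofReal (W j) *
              (ENNReal.ofReal c * (ENNReal.ofReal lam *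
                ENNReal.ofReal (c₀ / ((j : ℝ) + 1) ^ 2))) := by
              rw [← ENNReal.ofReal_mul hlam.le, ← ENNReal.ofReal_mul hc.le,
                ← ENNReal.ofReal_mul (hW0 j).le]
              rw [← ENNReal.ofReal_one]
              congr 1
              simp only [hW]
              field_simp
          _ ≤ _ := by gcongr
      calc (1 : ℝ≥0∞) = 1 ^ (m + 1) := (one_pow _).symm
        _ ≤ (ENNReal.ofReal (W j) * M j e) ^ (m + 1) := pow_le_pow_left' h4 _
        _ = ENNReal.ofReal (W j) ^ (m + 1) * M j (e : E (m + 1)) ^ (m + 1) := mul_pow _ _ _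
        _ ≤ _ := ENNReal.le_tsum j
    · rintro u ⟨hu1, hu2⟩
      refine ⟨hu2.1, hu2.2, ?_⟩
      intro y hy
      simp only [hA, mem_preimage, mem_iUnion] at hu1
      obtain ⟨i, hi, hi2⟩ := hu1
      simp only [hF, mem_iUnion]
      refine ⟨i, hi, ?_⟩
      rw [mem_closedBall] at hy hi2 ⊢
      have h6 := dist_triangle y (φ u) (x i)
      have h7 := hJ2 i
      rw [hi] at h7
      have h8 : dist y (φ u) ≤ (1 / 2) ^ (j + 1) := hy
      linarith
  -- integrate
  have hσ : (volume : Measure (E (m + 1))).toSphere S ≤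
      ∑' j, ENNReal.ofReal (W j) ^ (m + 1) * ∫⁻ e : sphere (0 : E (m + 1)) 1,
        M j e ^ (m + 1) ∂(volume : Measure (E (m + 1))).toSphere := by
    have hmj : ∀ j, Measurable (fun e : sphere (0 : E (m + 1)) 1 =>
        ENNReal.ofReal (W j) ^ (m + 1) * M j e ^ (m + 1)) := fun j =>
      (((hMm j).comp measurable_subtype_coe).pow_const _).const_mul _
    have h1 : (volume : Measure (E (m + 1))).toSphere S ≤
        ∫⁻ e : sphere (0 : E (m + 1)) 1, ∑' j, ENNReal.ofReal (W j) ^ (m + 1) *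
        M j e ^ (m + 1) ∂(volume : Measure (E (m + 1))).toSphere := by
      have h2 := mul_meas_ge_le_lintegral (μ := (volume : Measure (E (m + 1))).toSphere)
        (Measurable.ennreal_tsum hmj) 1
      rw [one_mul] at h2
      refine le_trans (measure_mono ?_) h2
      intro e he
      exact hpt e he
    refine h1.trans ?_
    rw [lintegral_tsum (fun j => (hmj j).aemeasurable)]
    apply ENNReal.tsum_le_tsum
    intro j
    rw [lintegral_const_mul' _ _ (ENNReal.pow_ne_top ENNReal.ofReal_ne_top)]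
  have hvF : ∀ j, volume (F j) ≤ ∑' i, if J i = j then
      ENNReal.ofReal ((2 * (1 / 2) ^ (j + 1)) ^ (m + 1)) * V else 0 := by
    intro j
    refine (measure_iUnion_le _).trans ?_
    apply ENNReal.tsum_le_tsum
    intro i
    by_cases h : J i = j
    · simp only [h, iUnion_true, if_true]
      rw [Measure.addHaar_closedBall _ _ (by positivity)]
      simp [hV]
    · simp [h]
  have hfin : (volume : Measure (E (m + 1))).toSphere S ≤
      ∑' i, ENNReal.ofReal (C₁ * (r i ^ (m + 1) * Real.log (1 / r i) ^ (3 * m + 2))) * V := by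
    calc (volume : Measure (E (m + 1))).toSphere S
        ≤ ∑' j, ENNReal.ofReal (W j) ^ (m + 1) * ∫⁻ e : sphere (0 : E (m + 1)) 1,
        M j e ^ (m + 1) ∂(volume : Measure (E (m + 1))).toSphere := hσ
      _ ≤ ∑' j, ∑' i, if J i = j then ENNReal.ofReal (W j) ^ (m + 1) *
          (ENNReal.ofReal (C * (1 + Real.log (1 / (1 / 2) ^ (j + 1))) ^ m) *
            (ENNReal.ofReal ((2 * (1 / 2) ^ (j + 1)) ^ (m + 1)) * V)) else 0 := by
          apply ENNReal.tsum_le_tsum
          intro j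
          calc _ ≤ ENNReal.ofReal (W j) ^ (m + 1) *
                (ENNReal.ofReal (C * (1 + Real.log (1 / (1 / 2) ^ (j + 1))) ^ m) *
                  volume (F j)) := by
                gcongr
                exact hint a _ (F j) ha (hδ0 j) (hδ1 j) (hFm j)
            _ ≤ ENNReal.ofReal (W j) ^ (m + 1) *
                (ENNReal.ofReal (C * (1 + Real.log (1 / (1 / 2) ^ (j + 1))) ^ m) *
                  ∑' i, if J i = j then
                    ENNReal.ofReal ((2 * (1 / 2) ^ (j + 1)) ^ (m + 1)) * V else 0) := by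
                gcongr
                exact hvF j
            _ = _ := by
                rw [← ENNReal.tsum_mul_left, ← ENNReal.tsum_mul_left]
                apply tsum_congr
                intro i
                split_ifs <;> simp
      _ = ∑' i, ENNReal.ofReal (W (J i)) ^ (m + 1) *
          (ENNReal.ofReal (C * (1 + Real.log (1 / (1 / 2) ^ (J i + 1))) ^ m) *
            (ENNReal.ofReal ((2 * (1 / 2) ^ (J i + 1)) ^ (m + 1)) * V)) := by
          rw [ENNReal.tsum_comm]
          apply tsum_congr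
          intro i
          rw [tsum_eq_single (J i)]
          · simp
          · intro j hj
            rw [if_neg (fun h => hj h.symm)]
      _ ≤ _ := by
          apply ENNReal.tsum_le_tsum
          intro i
          have hlog0 : 0 ≤ Real.log (1 / (1 / 2) ^ (J i + 1)) := by
            apply Real.log_nonneg
            rw [le_div_iff₀ (hδ0 _)]
            linarith [hδ1 (J i)]
          have h1 := hreal (J i) (r i) (hr i).1 (hr i).2 (hJ1 i) (hJ2 i)
          rw [← mul_assoc, ← mul_assoc]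
          gcongr
          rw [← ENNReal.ofReal_pow (hW0 _).le, ← ENNReal.ofReal_mul (by have := hW0 (J i); positivity),
            ← ENNReal.ofReal_mul (by have := hW0 (J i); positivity)]
          exact ENNReal.ofReal_le_ofReal h1
  -- conclude
  have hCV : 0 < C₁ * V.toReal := by positivity
  have hCV0 : ENNReal.ofReal (C₁ * V.toReal) ≠ 0 := by simpa using hCV
  calc ENNReal.ofReal (1 / (C₁ * V.toReal)) * (volume : Measure (E (m + 1))).toSphere S
      ≤ ENNReal.ofReal (1 / (C₁ * V.toReal)) *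
        ∑' i, ENNReal.ofReal (C₁ * (r i ^ (m + 1) * Real.log (1 / r i) ^ (3 * m + 2))) * V := by
        gcongr
    _ = ENNReal.ofReal (1 / (C₁ * V.toReal)) * (ENNReal.ofReal (C₁ * V.toReal) *
        ∑' i, ENNReal.ofReal (r i ^ (m + 1) * Real.log (1 / r i) ^ (3 * m + 2))) := by
        congr 1
        rw [← ENNReal.tsum_mul_left]
        apply tsum_congr
        intro i
        rw [ENNReal.ofReal_mul hC₁.le, ENNReal.ofReal_mul hC₁.le, ENNReal.ofReal_toReal hVt]
        ring
    _ = _ := by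
        rw [one_div, ENNReal.ofReal_inv_of_pos hCV, ← mul_assoc,
          ENNReal.inv_mul_cancel hCV0 ENNReal.ofReal_ne_top, one_mul]

theorem gauge_bound {n p : ℕ} {s : ℝ} (hs : s < n) : ∃ C : ℝ, 0 < C ∧
    ∀ r : ℝ, 0 < r → r ≤ 1 / 2 → r ^ n * Real.log (1 / r) ^ p ≤ C * r ^ s := by
  rcases Nat.eq_zero_or_pos p with hp | hp
  · subst hp
    refine ⟨1, one_pos, ?_⟩
    intro r hr hr2
    rw [pow_zero, mul_one, one_mul, ← Real.rpow_natCast]
    exact Real.rpow_le_rpow_of_exponent_ge hr (by linarith) hs.le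
  set η : ℝ := ((n : ℝ) - s) / p with hη
  have hp' : (0 : ℝ) < p := by exact_mod_cast hp
  have hη0 : 0 < η := div_pos (by linarith) hp'
  refine ⟨(1 / η) ^ p, by positivity, ?_⟩
  intro r hr hr2
  have h1 : Real.log (1 / r) ≤ (1 / r) ^ η / η := Real.log_le_rpow_div (by positivity) hη0
  have h0 : 0 ≤ Real.log (1 / r) := Real.log_nonneg (by rw [le_div_iff₀ hr]; linarith)
  have h2 : (1 / r) ^ η / η = (1 / η) * r ^ (-η) := by
    rw [one_div, Real.inv_rpow hr.le, ← Real.rpow_neg hr.le]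
    ring
  rw [h2] at h1
  calc r ^ n * Real.log (1 / r) ^ p ≤ r ^ n * ((1 / η) * r ^ (-η)) ^ p := by gcongr
    _ = (1 / η) ^ p * (r ^ n * (r ^ (-η)) ^ p) := by rw [mul_pow]; ring
    _ = (1 / η) ^ p * r ^ s := by
        congr 1
        rw [← Real.rpow_natCast (r ^ (-η)) p, ← Real.rpow_mul hr.le, ← Real.rpow_natCast r n,
          ← Real.rpow_add hr]
        congr 1
        rw [hη]
        field_simp
        ring

/-- Full Hausdorff dimension. -/
theorem dim_eq_aux (m : ℕ) (a : E (m + 1) → E (m + 1)) (S : Set (sphere (0 : E (m + 1)) 1))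
    (K : Set (E (m + 1))) (ha : Reducible (m + 1) a) {lam : ℝ} (hlam : 0 < lam)
    (hseg : ∀ e ∈ S, ∃ k : ℤ, ENNReal.ofReal lam ≤ volume (hts a K e ∩ Icc (k : ℝ) (k + 1)))
    (hS : 0 < (volume : Measure (E (m + 1))).toSphere S) : dimH K = (m + 1 : ℕ) := by
  apply le_antisymm
  · have h := dimH_mono (subset_univ K)
    rw [Real.dimH_univ_eq_finrank] at h
    simpa using h
  · by_contra hlt
    push Not at hlt
    classical
    obtain ⟨c, hc, hcont⟩ := content m hlam
    obtain ⟨s, hs1, hs2⟩ := ENNReal.lt_iff_exists_nnreal_btwn.1 hlt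
    have hs2' : s < ((m + 1 : ℕ) : ℝ≥0) := by exact_mod_cast hs2
    have hs2'' : (s : ℝ) < ((m + 1 : ℕ) : ℝ) := by exact_mod_cast hs2'
    have hs0 : 0 < s := by
      have : (0 : ℝ≥0∞) < s := lt_of_le_of_lt zero_le hs1
      exact_mod_cast this
    have hs0' : (0 : ℝ) < s := by exact_mod_cast hs0
    have hz : μH[(s : ℝ)] K = 0 := hausdorffMeasure_of_dimH_lt hs1
    obtain ⟨C, hC, hg⟩ := gauge_bound (n := m + 1) (p := 3 * m + 2) hs2''
    set σS := (volume : Measure (E (m + 1))).toSphere S with hσ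
    -- for all ε > 0 the sphere measure is at most a multiple of ε
    have hkey : ∀ ε : ℝ, 0 < ε → ENNReal.ofReal c * σS ≤ ENNReal.ofReal C * ENNReal.ofReal (2 * ε) := by
      intro ε hε
      rw [Measure.hausdorffMeasure_apply] at hz
      have h1 : (⨅ (t : ℕ → Set (E (m + 1))) (_ : K ⊆ ⋃ n, t n)
          (_ : ∀ n, ediam (t n) ≤ ENNReal.ofReal (1 / 2)),
            ∑' n, ⨆ _ : (t n).Nonempty, ediam (t n) ^ (s : ℝ)) = 0 := by
        have := (ENNReal.iSup_eq_zero.1 hz (ENNReal.ofReal (1 / 2)))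
        exact ENNReal.iSup_eq_zero.1 this (by simp)
      have h2 : (⨅ (t : ℕ → Set (E (m + 1))) (_ : K ⊆ ⋃ n, t n)
          (_ : ∀ n, ediam (t n) ≤ ENNReal.ofReal (1 / 2)),
            ∑' n, ⨆ _ : (t n).Nonempty, ediam (t n) ^ (s : ℝ)) < ENNReal.ofReal ε := by
        rw [h1]
        simpa using hε
      simp only [iInf_lt_iff] at h2
      obtain ⟨t, ht1, ht2, ht3⟩ := h2
      -- small positive numbers
      obtain ⟨η, hη0, hηs⟩ := ENNReal.exists_pos_sum_of_countable
        (ε := ENNReal.ofReal ε) (by simpa using hε) ℕ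
      have hcen : ∀ i, ∃ y : E (m + 1), (t i).Nonempty → y ∈ t i := by
        intro i
        by_cases h : (t i).Nonempty
        · exact ⟨h.some, fun _ => h.some_mem⟩
        · exact ⟨0, fun h' => absurd h' h⟩
      choose y hy using hcen
      set D : ℕ → ℝ := fun i => (ediam (t i)).toReal with hD
      have hDt : ∀ i, ediam (t i) ≠ ∞ := fun i => ((ht2 i).trans_lt ENNReal.ofReal_lt_top).ne
      have hD2 : ∀ i, D i ≤ 1 / 2 := fun i =>
        ENNReal.toReal_le_of_le_ofReal (by norm_num) (ht2 i)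
      have hD0 : ∀ i, 0 ≤ D i := fun i => ENNReal.toReal_nonneg
      set θ : ℕ → ℝ := fun i => min (1 / 2) ((η i : ℝ) ^ (1 / (s : ℝ))) with hθ
      have hη0' : ∀ i, (0 : ℝ) < η i := fun i => by exact_mod_cast hη0 i
      have hθ0 : ∀ i, 0 < θ i := fun i => by
        have := hη0' i
        simp only [hθ]
        positivity
      have hθs : ∀ i, θ i ^ (s : ℝ) ≤ η i := by
        intro i
        calc θ i ^ (s : ℝ) ≤ ((η i : ℝ) ^ (1 / (s : ℝ))) ^ (s : ℝ) :=
              Real.rpow_le_rpow (hθ0 i).le (min_le_right _ _) hs0'.le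
          _ = η i := by
              rw [← Real.rpow_mul (hη0' i).le, one_div, inv_mul_cancel₀ hs0'.ne', Real.rpow_one]
      set r : ℕ → ℝ := fun i => if (t i).Nonempty then max (D i) (θ i) else θ i with hr
      have hr0 : ∀ i, 0 < r i ∧ r i ≤ 1 / 2 := by
        intro i
        simp only [hr]
        split_ifs
        · exact ⟨lt_max_of_lt_right (hθ0 i), max_le (hD2 i) (min_le_left _ _)⟩
        · exact ⟨hθ0 i, min_le_left _ _⟩
      have hcov : K ⊆ ⋃ i, closedBall (y i) (r i) := by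
        intro p hp
        obtain ⟨i, hi⟩ := mem_iUnion.1 (ht1 hp)
        refine mem_iUnion.2 ⟨i, ?_⟩
        have hne : (t i).Nonempty := ⟨p, hi⟩
        rw [mem_closedBall]
        have h3 : edist p (y i) ≤ ediam (t i) := edist_le_ediam_of_mem hi (hy i hne)
        have h4 : dist p (y i) ≤ D i := by
          rw [edist_dist] at h3
          have := ENNReal.toReal_mono (hDt i) h3
          rwa [ENNReal.toReal_ofReal dist_nonneg] at this
        simp only [hr, hne, if_true]
        exact h4.trans (le_max_left _ _)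
      have h5 := hcont a S K ha hseg y r hr0 hcov
      refine h5.trans ?_
      calc ∑' i, ENNReal.ofReal (r i ^ (m + 1) * Real.log (1 / r i) ^ (3 * m + 2))
          ≤ ∑' i, ENNReal.ofReal C * ((⨆ _ : (t i).Nonempty, ediam (t i) ^ (s : ℝ)) + (η i : ℝ≥0∞)) := by
            apply ENNReal.tsum_le_tsum
            intro i
            have h6 := hg (r i) (hr0 i).1 (hr0 i).2
            refine (ENNReal.ofReal_le_ofReal h6).trans ?_
            rw [ENNReal.ofReal_mul hC.le]
            gcongr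
            by_cases hne : (t i).Nonempty
            · simp only [hne, ciSup_unique]
              have h7 : r i ^ (s : ℝ) ≤ D i ^ (s : ℝ) + η i := by
                simp only [hr, hne, if_true]
                rcases le_total (D i) (θ i) with h | h
                · rw [max_eq_right h]
                  have := Real.rpow_nonneg (hD0 i) (s : ℝ)
                  linarith [hθs i]
                · rw [max_eq_left h]
                  linarith [hη0' i]
              refine (ENNReal.ofReal_le_ofReal h7).trans ?_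
              rw [ENNReal.ofReal_add (Real.rpow_nonneg (hD0 i) _) (hη0' i).le]
              apply add_le_add
              · rw [← ENNReal.ofReal_rpow_of_nonneg (hD0 i) hs0'.le]
                simp only [hD]
                rw [ENNReal.ofReal_toReal (hDt i)]
              · simp
            · have h7 : r i ^ (s : ℝ) ≤ η i := by
                simp only [hr, hne, if_false]
                exact hθs i
              refine (ENNReal.ofReal_le_ofReal h7).trans ?_
              simp
        _ = ENNReal.ofReal C * (∑' i, (⨆ _ : (t i).Nonempty, ediam (t i) ^ (s : ℝ)) +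
            ∑' i, (η i : ℝ≥0∞)) := by
            rw [ENNReal.tsum_mul_left, ENNReal.tsum_add]
        _ ≤ ENNReal.ofReal C * (ENNReal.ofReal ε + ENNReal.ofReal ε) := by gcongr
        _ = _ := by
            rw [← ENNReal.ofReal_add hε.le hε.le]
            congr 2
            ring
    have hσt : σS ≠ ∞ := measure_ne_top _ _
    have hσ0 : 0 < σS.toReal := ENNReal.toReal_pos hS.ne' hσt
    have h8 := hkey (c * σS.toReal / (4 * C)) (by positivity)
    rw [← ENNReal.ofReal_mul hC.le] at h8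
    have h9 : ENNReal.ofReal c * σS = ENNReal.ofReal (c * σS.toReal) := by
      rw [ENNReal.ofReal_mul hc.le, ENNReal.ofReal_toReal hσt]
    rw [h9, ENNReal.ofReal_le_ofReal_iff (by positivity)] at h8
    have h10 : C * (2 * (c * σS.toReal / (4 * C))) = c * σS.toReal / 2 := by
      field_simp
      ring
    rw [h10] at h8
    have : 0 < c * σS.toReal := by positivity
    linarith

/-- Full Hausdorff dimension: it is enough that `K` meets the lines in sets of positive length. -/
theorem dim_eq (m : ℕ) (a : E (m + 1) → E (m + 1)) (S : Set (sphere (0 : E (m + 1)) 1))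
    (K : Set (E (m + 1))) (ha : Reducible (m + 1) a)
    (hseg : ∀ e ∈ S, 0 < volume {t : ℝ | a e + t • (e : E (m + 1)) ∈ K})
    (hS : 0 < (volume : Measure (E (m + 1))).toSphere S) : dimH K = (m + 1 : ℕ) := by
  set T : ℕ → Set (sphere (0 : E (m + 1)) 1) := fun N =>
    {e | ∃ k : ℤ, ENNReal.ofReal (1 / (N + 1)) ≤ volume (hts a K e ∩ Icc (k : ℝ) (k + 1))} with hT
  have hcov : S ⊆ ⋃ N, T N := by
    intro e he
    have h1 := hseg e he
    have h2 : 0 < volume (hts a K e) := by
      have h3 : hts a K e = (fun u => u + (-inner ℝ (a e) (e : E (m + 1)))) ⁻¹'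
          {t : ℝ | a e + t • (e : E (m + 1)) ∈ K} := by
        ext u
        simp only [hts, mem_setOf_eq, mem_preimage, sub_eq_add_neg]
      rw [h3, measure_preimage_add_right]
      exact h1
    have h4 : ∃ k : ℤ, 0 < volume (hts a K e ∩ Icc (k : ℝ) (k + 1)) := by
      by_contra hcon
      push Not at hcon
      have h5 : volume (⋃ k : ℤ, hts a K e ∩ Icc (k : ℝ) (k + 1)) = 0 :=
        measure_iUnion_null (fun k => le_antisymm (hcon k) zero_le)
      have h6 : hts a K e ⊆ ⋃ k : ℤ, hts a K e ∩ Icc (k : ℝ) (k + 1) := by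
        intro u hu
        exact mem_iUnion.2 ⟨⌊u⌋, hu, Int.floor_le u, (Int.lt_floor_add_one u).le⟩
      exact absurd (measure_mono_null h6 h5) h2.ne'
    obtain ⟨k, hk⟩ := h4
    obtain ⟨N, hN⟩ := ENNReal.exists_inv_nat_lt hk.ne'
    refine mem_iUnion.2 ⟨N, k, ?_⟩
    refine le_trans ?_ hN.le
    rw [one_div, ENNReal.ofReal_inv_of_pos (by positivity)]
    apply ENNReal.inv_le_inv.2
    rw [← ENNReal.ofReal_natCast]
    exact ENNReal.ofReal_le_ofReal (by linarith)
  have h7 : ∃ N, 0 < (volume : Measure (E (m + 1))).toSphere (T N) := by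
    by_contra hcon
    push Not at hcon
    have h5 : (volume : Measure (E (m + 1))).toSphere (⋃ N, T N) = 0 :=
      measure_iUnion_null (fun k => le_antisymm (hcon k) zero_le)
    exact absurd (measure_mono_null hcov h5) hS.ne'
  obtain ⟨N, hN⟩ := h7
  exact dim_eq_aux m a (T N) K ha (lam := 1 / (N + 1)) (by positivity) (fun e he => he) hN

end Pool.Agent.H023R3.KS
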